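import Mathlib

/-! Algebraic part of the flux argument: antisymmetrised traces of products. -/

namespace Pool.Agent.C1End

open Equiv Finset

variable {R : Type*} [Ring R]

/-- inserting a factor in front of the `p`-th factor -/
theorem prod_update_mul {n : ℕ} (w : R) (v : Fin n → R) (p : Fin n) :
    (List.ofFn (Function.update v p (w * v p))).prod =
      (List.ofFn (p.castSucc.insertNth (α := fun _ => R) w v)).prod := by
  induction n with
  | zero => exact p.elim0
  | succ n ih =>
    refine Fin.cases ?_ (fun p' => ?_) p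
    · have h1 : Function.update v 0 (w * v 0) = Fin.cons (w * v 0) (Fin.tail v) := by
        ext i; refine Fin.cases ?_ (fun i => ?_) i <;> simp [Fin.tail]
      rw [h1, Fin.castSucc_zero, Fin.insertNth_zero']
      have h2 : (v : Fin (n+1) → R) = Fin.cons (v 0) (Fin.tail v) := (Fin.cons_self_tail v).symm
      rw [List.ofFn_cons, List.ofFn_cons, List.prod_cons, List.prod_cons]
      conv_rhs => rw [h2, List.ofFn_cons, List.prod_cons]
      rw [mul_assoc]
    · have h1 : Function.update v p'.succ (w * v p'.succ) =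
          Fin.cons (v 0) (Function.update (Fin.tail v) p' (w * Fin.tail v p')) := by
        ext i
        refine Fin.cases ?_ (fun i => ?_) i
        · rw [Function.update_of_ne (Fin.succ_ne_zero p').symm]; simp
        · by_cases h : i = p'
          · subst h; simp [Fin.tail]
          · rw [Function.update_of_ne (fun h' => h (Fin.succ_injective _ h'))]
            simp [Fin.tail, h]
      have h3 : (p'.succ.castSucc.insertNth (α := fun _ => R) w v) =
          Fin.cons (v 0) (p'.castSucc.insertNth (α := fun _ => R) w (Fin.tail v)) := by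
        rw [← Fin.succ_castSucc]
        ext i
        refine Fin.cases ?_ (fun i => ?_) i
        · have : (0 : Fin (n+2)) = p'.castSucc.succ.succAbove 0 := by
            rw [Fin.succ_succAbove_zero]
          rw [Fin.cons_zero]
          conv_lhs => rw [this]
          rw [Fin.insertNth_apply_succAbove]
        · rw [Fin.cons_succ]
          rcases Fin.eq_self_or_eq_succAbove p'.castSucc i with h | ⟨j, h⟩
          · subst h; simp
          · subst h
            rw [← Fin.succ_succAbove_succ, Fin.insertNth_apply_succAbove,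
              Fin.insertNth_apply_succAbove]
            rfl
      rw [h1, h3, List.ofFn_cons, List.ofFn_cons, List.prod_cons, List.prod_cons, ih]

/-- the fully antisymmetrised trace of a product of `k` factors -/
noncomputable def altTr {k : ℕ} (τ : R → ℂ) (θ : Fin k → R) : ℂ :=
  ∑ σ : Perm (Fin k), ((Perm.sign σ : ℤ) : ℂ) * τ (List.ofFn (θ ∘ σ)).prod

theorem altTr_comp {k : ℕ} (τ : R → ℂ) (θ : Fin k → R) (c : Perm (Fin k)) :
    (∑ σ : Perm (Fin k), ((Perm.sign σ : ℤ) : ℂ) * τ (List.ofFn (θ ∘ σ ∘ c)).prod) =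
      ((Perm.sign c : ℤ) : ℂ) * altTr τ θ := by
  have h := Equiv.sum_comp (Equiv.mulRight c)
    (fun σ : Perm (Fin k) => ((Perm.sign σ : ℤ) : ℂ) * τ (List.ofFn (θ ∘ σ)).prod)
  rw [altTr, ← h, Finset.mul_sum]
  refine Finset.sum_congr rfl (fun σ _ => ?_)
  have h1 : ((Perm.sign c : ℤ) : ℂ) * ((Perm.sign c : ℤ) : ℂ) = 1 := by
    rcases Int.units_eq_one_or (Perm.sign c) with h | h <;> simp [h]
  simp only [Equiv.coe_mulRight, Perm.sign_mul, Units.val_mul, Int.cast_mul, Perm.coe_mul]
  linear_combination (-(((Perm.sign σ : ℤ) : ℂ) * τ (List.ofFn (θ ∘ σ ∘ c)).prod)) * h1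

/-- for an even number `n + 1` of factors the antisymmetrised trace vanishes -/
theorem altTr_eq_zero {n : ℕ} (hn : Odd n) (τ : R → ℂ) (hτ : ∀ a b, τ (a * b) = τ (b * a))
    (θ : Fin (n + 1) → R) : altTr τ θ = 0 := by
  have h := altTr_comp τ θ (finRotate (n + 1))
  have hs : ((Perm.sign (finRotate (n + 1)) : ℤ) : ℂ) = -1 := by
    rw [sign_finRotate]; simp [hn.neg_one_pow]
  have h2 : (∑ σ : Perm (Fin (n+1)), ((Perm.sign σ : ℤ) : ℂ) *
      τ (List.ofFn (θ ∘ σ ∘ finRotate (n+1))).prod) = altTr τ θ := by
    rw [altTr]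
    refine Finset.sum_congr rfl (fun σ _ => ?_)
    congr 1
    have e1 : List.ofFn (θ ∘ σ ∘ finRotate (n+1)) =
        (List.ofFn (fun i : Fin n => θ (σ i.succ))).concat (θ (σ 0)) := by
      rw [List.ofFn_succ']
      congr 1
      · congr 1; ext i
        simp [Fin.succ]
      · simp
    have e2 : List.ofFn (θ ∘ σ) = (θ (σ 0)) :: List.ofFn (fun i : Fin n => θ (σ i.succ)) := by
      rw [List.ofFn_succ]; rfl
    rw [e1, e2, List.concat_eq_append, List.prod_append, List.prod_singleton, List.prod_cons, hτ]
  rw [h2, hs] at h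
  have : (2 : ℂ) * altTr τ θ = 0 := by linear_combination h
  simpa using this

/-- the algebraic heart of `div = 0` -/
theorem div_identity {n : ℕ} (hn : Odd n) (τ : R → ℂ) (hτ : ∀ a b, τ (a * b) = τ (b * a))
    (θ : Fin (n + 1) → R) (p : Fin n) :
    (∑ σ : Perm (Fin (n+1)), ((Perm.sign σ : ℤ) : ℂ) *
      τ (List.ofFn (Function.update (fun k : Fin n => θ (σ k.succ)) p
        (θ (σ 0) * θ (σ p.succ)))).prod) = 0 := by
  have h := altTr_comp τ θ p.castSucc.cycleRange
  rw [altTr_eq_zero hn τ hτ, mul_zero] at h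
  rw [← h]
  refine Finset.sum_congr rfl (fun σ _ => ?_)
  congr 2
  rw [prod_update_mul (θ (σ 0)) (fun k : Fin n => θ (σ k.succ)) p]
  rw [← Fin.cons_comp_cycleRange]
  congr 2
  rw [← Function.comp_assoc]
  congr 1
  ext i
  refine Fin.cases ?_ (fun i => ?_) i <;> simp

end Pool.Agent.C1End
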