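import Mathlib

/-! Clifford generators as explicit real signed permutation matrices (Jordan Wigner form), for
`Fin n` and for every finite label set; the odd unit elements `(γ_r - γ_s) / √2`; the quadratic
relation `Γ(v)^2 = |v|^2` for real linear combinations. -/

namespace Pool.Agent.C1End

open Matrix Finset

/-- flip coordinate `i` -/
def flp {n : ℕ} (i : Fin n) (x : Fin n → Bool) : Fin n → Bool := Function.update x i (!(x i))

theorem flp_self {n : ℕ} (i : Fin n) (x : Fin n → Bool) : flp i x i = !(x i) := by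
  simp [flp]

theorem flp_of_ne {n : ℕ} {i j : Fin n} (h : j ≠ i) (x : Fin n → Bool) : flp i x j = x j := by
  simp [flp, h]

theorem flp_flp {n : ℕ} (i : Fin n) (x : Fin n → Bool) : flp i (flp i x) = x := by
  funext j
  by_cases h : j = i
  · subst h; simp [flp_self]
  · simp [flp_of_ne h]

theorem flp_comm {n : ℕ} (i j : Fin n) (x : Fin n → Bool) :
    flp i (flp j x) = flp j (flp i x) := by
  funext k
  by_cases hi : k = i <;> by_cases hj : k = j
  · subst hi; subst hj; rfl
  · subst hi; rw [flp_self, flp_of_ne hj, flp_of_ne hj, flp_self]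
  · subst hj; rw [flp_self, flp_of_ne hi, flp_self, flp_of_ne hi]
  · simp [flp_of_ne hi, flp_of_ne hj]

theorem flp_inj {n : ℕ} (i : Fin n) {x y : Fin n → Bool} (h : flp i x = flp i y) : x = y := by
  rw [← flp_flp i x, h, flp_flp]

/-- the sign of one bit -/
def bs (b : Bool) : ℂ := if b then -1 else 1

theorem bs_mul_self (b : Bool) : bs b * bs b = 1 := by cases b <;> simp [bs]

theorem bs_not (b : Bool) : bs (!b) = -bs b := by cases b <;> simp [bs]

theorem star_bs (b : Bool) : star (bs b) = bs b := by cases b <;> simp [bs]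

/-- the Jordan Wigner sign: product of the signs of the bits before `i` -/
noncomputable def jw {n : ℕ} (i : Fin n) (x : Fin n → Bool) : ℂ :=
  ∏ j ∈ Finset.Iio i, bs (x j)

theorem jw_mul_self {n : ℕ} (i : Fin n) (x : Fin n → Bool) : jw i x * jw i x = 1 := by
  rw [jw, ← Finset.prod_mul_distrib]
  exact Finset.prod_eq_one (fun j _ => bs_mul_self _)

theorem star_jw {n : ℕ} (i : Fin n) (x : Fin n → Bool) : star (jw i x) = jw i x := by
  rw [jw, star_prod]
  exact Finset.prod_congr rfl (fun j _ => star_bs _)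

/-- flipping a bit at or after `i` does not change the sign -/
theorem jw_flp_of_le {n : ℕ} {i j : Fin n} (h : i ≤ j) (x : Fin n → Bool) :
    jw i (flp j x) = jw i x := by
  refine Finset.prod_congr rfl (fun k hk => ?_)
  rw [flp_of_ne]
  exact ne_of_lt (lt_of_lt_of_le (Finset.mem_Iio.mp hk) h)

/-- flipping a bit before `i` changes the sign -/
theorem jw_flp_of_lt {n : ℕ} {i j : Fin n} (h : j < i) (x : Fin n → Bool) :
    jw i (flp j x) = -jw i x := by
  have hm : j ∈ Finset.Iio i := Finset.mem_Iio.mpr h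
  rw [jw, jw, ← Finset.mul_prod_erase _ _ hm, ← Finset.mul_prod_erase (Finset.Iio i) _ hm,
    flp_self, bs_not, neg_mul]
  congr 2
  refine Finset.prod_congr rfl (fun k hk => ?_)
  rw [flp_of_ne (Finset.ne_of_mem_erase hk)]

/-- the Clifford generator number `i` on the spinor space of functions on the cube -/
noncomputable def cl {n : ℕ} (i : Fin n) : Matrix (Fin n → Bool) (Fin n → Bool) ℂ :=
  Matrix.of (fun x y => if y = flp i x then jw i x else 0)

theorem cl_apply {n : ℕ} (i : Fin n) (x y : Fin n → Bool) :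
    cl i x y = if y = flp i x then jw i x else 0 := rfl

/-- the action on vectors -/
theorem cl_mulVec {n : ℕ} (i : Fin n) (v : (Fin n → Bool) → ℂ) (x : Fin n → Bool) :
    (cl i).mulVec v x = jw i x * v (flp i x) := by
  simp [Matrix.mulVec, dotProduct, cl_apply]

theorem cl_mul_apply {n : ℕ} (i : Fin n) (M : Matrix (Fin n → Bool) (Fin n → Bool) ℂ)
    (x z : Fin n → Bool) : (cl i * M) x z = jw i x * M (flp i x) z := by
  simp [Matrix.mul_apply, cl_apply]

theorem cl_herm {n : ℕ} (i : Fin n) : (cl i)ᴴ = cl i := by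
  ext x y
  rw [Matrix.conjTranspose_apply, cl_apply, cl_apply]
  by_cases h : x = flp i y
  · have h' : y = flp i x := by rw [h, flp_flp]
    rw [if_pos h, if_pos h', star_jw, h, jw_flp_of_le le_rfl]
  · have h' : ¬ y = flp i x := fun h1 => h (by rw [h1, flp_flp])
    rw [if_neg h, if_neg h', star_zero]

theorem cl_sq {n : ℕ} (i : Fin n) : cl i * cl i = 1 := by
  ext x z
  rw [cl_mul_apply, cl_apply, flp_flp, jw_flp_of_le le_rfl, Matrix.one_apply]
  by_cases h : z = x
  · rw [if_pos h, if_pos h.symm, jw_mul_self]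
  · rw [if_neg h, if_neg (fun h1 => h h1.symm), mul_zero]

theorem cl_anti_of_lt {n : ℕ} {i j : Fin n} (h : i < j) : cl i * cl j = -(cl j * cl i) := by
  ext x z
  rw [Matrix.neg_apply, cl_mul_apply, cl_mul_apply, cl_apply, cl_apply, flp_comm j i]
  by_cases hz : z = flp i (flp j x)
  · rw [if_pos hz, if_pos hz, jw_flp_of_lt h, jw_flp_of_le h.le]; ring
  · rw [if_neg hz, if_neg hz]; simp

theorem cl_anti {n : ℕ} {i j : Fin n} (h : i ≠ j) : cl i * cl j = -(cl j * cl i) := by
  rcases lt_or_gt_of_ne h with h1 | h1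
  · exact cl_anti_of_lt h1
  · rw [cl_anti_of_lt h1, neg_neg]

/-- A Clifford family indexed by a label set: hermitian involutions which anticommute. -/
structure IsCliff {R m : Type*} [Fintype m] [DecidableEq m] (γ : R → Matrix m m ℂ) : Prop where
  herm : ∀ r, (γ r)ᴴ = γ r
  sq : ∀ r, γ r * γ r = 1
  anti : ∀ r s, r ≠ s → γ r * γ s = -(γ s * γ r)

theorem isCliff_cl (n : ℕ) : IsCliff (fun i : Fin n => cl i) :=
  ⟨fun i => cl_herm i, fun i => cl_sq i, fun _ _ h => cl_anti h⟩

/-- the spinor index set of a finite label set -/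
abbrev Spin (R : Type*) [Fintype R] := Fin (Fintype.card R) → Bool

/-- **Clifford generators** of a finite label set. -/
noncomputable def gam {R : Type*} [Fintype R] (r : R) : Matrix (Spin R) (Spin R) ℂ :=
  cl (Fintype.equivFin R r)

theorem isCliff_gam (R : Type*) [Fintype R] : IsCliff (fun r : R => gam r) :=
  ⟨fun _ => cl_herm _, fun _ => cl_sq _,
    fun _ _ h => cl_anti (fun h1 => h ((Fintype.equivFin R).injective h1))⟩

theorem exists_isCliff (R : Type*) [Fintype R] :
    ∃ (m : Type) (_ : Fintype m) (_ : DecidableEq m) (_ : Nonempty m) (γ : R → Matrix m m ℂ),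
      IsCliff γ :=
  ⟨Spin R, inferInstance, inferInstance, inferInstance, fun r => gam r, isCliff_gam R⟩

namespace IsCliff

variable {R m : Type*} [Fintype m] [DecidableEq m] {γ : R → Matrix m m ℂ}

/-- `Γ(v) = ∑ v_r γ_r` -/
noncomputable def lin [Fintype R] (γ : R → Matrix m m ℂ) (v : R → ℝ) : Matrix m m ℂ :=
  ∑ r, (v r : ℂ) • γ r

theorem lin_herm [Fintype R] (h : IsCliff γ) (v : R → ℝ) : (lin γ v)ᴴ = lin γ v := by
  rw [lin, Matrix.conjTranspose_sum]
  refine Finset.sum_congr rfl (fun r _ => ?_)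
  rw [Matrix.conjTranspose_smul, h.herm]
  simp

/-- the polarised Clifford relation -/
theorem lin_anticomm [Fintype R] (h : IsCliff γ) (v w : R → ℝ) :
    lin γ v * lin γ w + lin γ w * lin γ v =
      ((2 * ∑ r, v r * w r : ℝ) : ℂ) • (1 : Matrix m m ℂ) := by
  classical
  have h1 : lin γ v * lin γ w = ∑ r, ∑ s, ((v r : ℂ) * (w s : ℂ)) • (γ r * γ s) := by
    rw [lin, lin, Finset.sum_mul_sum]
    refine Finset.sum_congr rfl (fun r _ => Finset.sum_congr rfl (fun s _ => ?_))
    rw [smul_mul_smul_comm]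
  have h2 : lin γ w * lin γ v = ∑ r, ∑ s, ((v r : ℂ) * (w s : ℂ)) • (γ s * γ r) := by
    rw [lin, lin, Finset.sum_mul_sum, Finset.sum_comm]
    refine Finset.sum_congr rfl (fun r _ => Finset.sum_congr rfl (fun s _ => ?_))
    rw [smul_mul_smul_comm, mul_comm (w s : ℂ)]
  rw [h1, h2, ← Finset.sum_add_distrib, Complex.ofReal_mul, Complex.ofReal_sum, Finset.mul_sum,
    Finset.sum_smul]
  refine Finset.sum_congr rfl (fun r _ => ?_)
  rw [← Finset.sum_add_distrib, Finset.sum_eq_single r]
  · rw [h.sq, ← smul_add, ← two_smul ℂ (1 : Matrix m m ℂ), smul_smul]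
    congr 1
    push_cast
    ring
  · intro s _ hs
    rw [h.anti r s hs.symm, ← smul_add]
    simp
  · intro h0; exact absurd (Finset.mem_univ r) h0

theorem lin_sq [Fintype R] (h : IsCliff γ) (v : R → ℝ) :
    lin γ v * lin γ v = ((∑ r, v r ^ 2 : ℝ) : ℂ) • (1 : Matrix m m ℂ) := by
  have h1 := h.lin_anticomm v v
  have h2 : (2 : ℂ) • (lin γ v * lin γ v) =
      (2 : ℂ) • (((∑ r, v r ^ 2 : ℝ) : ℂ) • (1 : Matrix m m ℂ)) := by
    rw [two_smul, h1, smul_smul]
    congr 1
    push_cast
    congr 1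
    exact Finset.sum_congr rfl (fun r _ => by ring)
  exact smul_right_injective _ (two_ne_zero' ℂ) h2

/-- the odd unit element of an ordered pair of labels -/
noncomputable def dif (γ : R → Matrix m m ℂ) (r s : R) : Matrix m m ℂ :=
  ((Real.sqrt 2)⁻¹ : ℂ) • (γ r - γ s)

omit [Fintype m] [DecidableEq m] in
theorem dif_swap (r s : R) : dif γ s r = -dif γ r s := by
  rw [dif, dif, ← smul_neg, neg_sub]

theorem dif_herm (h : IsCliff γ) (r s : R) : (dif γ r s)ᴴ = dif γ r s := by
  rw [dif, Matrix.conjTranspose_smul, Matrix.conjTranspose_sub, h.herm, h.herm]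
  simp

theorem dif_sq (h : IsCliff γ) {r s : R} (hrs : r ≠ s) : dif γ r s * dif γ r s = 1 := by
  have h1 : (γ r - γ s) * (γ r - γ s) = (2 : ℂ) • (1 : Matrix m m ℂ) := by
    rw [sub_mul, mul_sub, mul_sub, h.sq, h.sq, h.anti r s hrs, two_smul]
    abel
  have h3 : ((Real.sqrt 2)⁻¹ : ℂ) * ((Real.sqrt 2)⁻¹ : ℂ) * 2 = 1 := by
    have h2 : ((Real.sqrt 2 : ℝ) : ℂ) * ((Real.sqrt 2 : ℝ) : ℂ) = 2 := by
      rw [← Complex.ofReal_mul, Real.mul_self_sqrt (by norm_num)]; norm_num
    have h4 : ((Real.sqrt 2 : ℝ) : ℂ) ≠ 0 := by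
      rw [Complex.ofReal_ne_zero]; exact (Real.sqrt_pos.mpr (by norm_num)).ne'
    field_simp
    rw [pow_two, h2]
  rw [dif, smul_mul_smul_comm, h1, smul_smul, h3, one_smul]

end IsCliff

end Pool.Agent.C1End
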