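import Pool.Agent.C1End.World

/-! The cube: edge operators, antipode, parity; the reduction for labelled worlds on `Q_n`. -/

namespace Pool.Agent.C1End

open Equiv Finset Matrix
open scoped ComplexOrder

section mono

variable {X S : Type*} [Fintype X] [DecidableEq X] [Fintype S] [DecidableEq S]

/-- monomial matrix `f ↦ (x ↦ t x • f (φ x))` -/
def mono (S : Type*) [DecidableEq S] (t : X → ℂ) (φ : X → X) : Matrix (S × X) (S × X) ℂ :=
  fun p q => if q = (p.1, φ p.2) then t p.2 else 0

theorem mono_mul (t : X → ℂ) (φ : X → X) (M : Matrix (S × X) (S × X) ℂ) (p q : S × X) :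
    (mono S t φ * M) p q = t p.2 * M (p.1, φ p.2) q := by
  rw [Matrix.mul_apply, Finset.sum_eq_single (p.1, φ p.2)]
  · simp [mono]
  · intro b _ hb; simp [mono, hb]
  · simp

theorem mono_mulVec (t : X → ℂ) (φ : X → X) (f : S × X → ℂ) (p : S × X) :
    (mono S t φ).mulVec f p = t p.2 * f (p.1, φ p.2) := by
  rw [Matrix.mulVec, dotProduct, Finset.sum_eq_single (p.1, φ p.2)]
  · simp [mono]
  · intro b _ hb; simp [mono, hb]
  · simp

theorem mono_mul_mono (t t' : X → ℂ) (φ φ' : X → X) :
    mono S t φ * mono S t' φ' = mono S (fun x => t x * t' (φ x)) (fun x => φ' (φ x)) := by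
  ext p q
  rw [mono_mul]
  simp only [mono]
  by_cases h : q = (p.1, φ' (φ p.2))
  · simp [h]
  · simp [h]

omit [Fintype X] [Fintype S] in
theorem mono_one : mono S (fun _ : X => (1 : ℂ)) (fun x => x) = 1 := by
  ext p q
  simp only [mono, Matrix.one_apply]
  by_cases h : p = q
  · subst h; simp
  · rw [if_neg h, if_neg]; intro h'; exact h (h'.symm)

omit [Fintype X] [Fintype S] in
theorem mono_neg (t : X → ℂ) (φ : X → X) : mono S (fun x => - t x) φ = - mono S t φ := by
  ext p q
  simp only [mono, Matrix.neg_apply]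
  by_cases h : q = (p.1, φ p.2)
  · simp [h]
  · simp [h]

omit [Fintype X] [Fintype S] in
theorem mono_smul (c : ℂ) (t : X → ℂ) (φ : X → X) :
    mono S (fun x => c * t x) φ = c • mono S t φ := by
  ext p q
  simp only [mono, Matrix.smul_apply]
  by_cases h : q = (p.1, φ p.2)
  · simp [h]
  · simp [h]

omit [Fintype X] [Fintype S] in
theorem mono_hermitian (t : X → ℂ) (φ : X → X) (hφ : ∀ x, φ (φ x) = x)
    (ht : ∀ x, star (t (φ x)) = t x) : (mono S t φ).IsHermitian := by
  ext p q
  rw [Matrix.conjTranspose_apply]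
  simp only [mono]
  by_cases h : q = (p.1, φ p.2)
  · subst h; simp only [hφ, if_true]; exact ht _
  · rw [if_neg h, if_neg]
    · simp
    · intro h'; apply h; rw [h']; simp [hφ]

/-- block diagonal matrix -/
def bd (Y : X → Matrix S S ℂ) : Matrix (S × X) (S × X) ℂ :=
  fun p q => if p.2 = q.2 then Y p.2 p.1 q.1 else 0

omit [DecidableEq S] in
theorem bd_mulVec (Y : X → Matrix S S ℂ) (f : S × X → ℂ) (p : S × X) :
    (bd Y).mulVec f p = (Y p.2).mulVec (fun a => f (a, p.2)) p.1 := by
  rw [Matrix.mulVec, dotProduct, Fintype.sum_prod_type, Matrix.mulVec, dotProduct]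
  refine Finset.sum_congr rfl (fun a _ => ?_)
  rw [Finset.sum_eq_single p.2]
  · simp [bd]
  · intro b _ hb; simp [bd, Ne.symm hb]
  · simp

omit [DecidableEq S] in
theorem bd_mul (Y Z : X → Matrix S S ℂ) : bd Y * bd Z = bd (fun x => Y x * Z x) := by
  ext p q
  rw [Matrix.mul_apply, Fintype.sum_prod_type]
  simp only [bd]
  by_cases h : p.2 = q.2
  · rw [if_pos h, Matrix.mul_apply]
    refine Finset.sum_congr rfl (fun a _ => ?_)
    rw [Finset.sum_eq_single p.2]
    · simp [h]
    · intro b _ hb; simp [Ne.symm hb]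
    · simp
  · rw [if_neg h]
    refine Finset.sum_eq_zero (fun a _ => Finset.sum_eq_zero (fun b _ => ?_))
    by_cases h1 : p.2 = b
    · have h2 : ¬ b = q.2 := fun h3 => h (h1.trans h3)
      simp [h2]
    · simp [h1]

omit [Fintype X] [Fintype S] in
theorem bd_one : bd (fun _ : X => (1 : Matrix S S ℂ)) = 1 := by
  ext p q
  simp only [bd, Matrix.one_apply, Prod.ext_iff]
  by_cases h : p.2 = q.2 <;> by_cases h' : p.1 = q.1 <;> simp [h, h']

omit [Fintype X] [Fintype S] [DecidableEq S] in
theorem bd_hermitian (Y : X → Matrix S S ℂ) (hY : ∀ x, (Y x).IsHermitian) :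
    (bd Y).IsHermitian := by
  ext p q
  rw [Matrix.conjTranspose_apply]
  simp only [bd]
  by_cases h : p.2 = q.2
  · rw [if_pos h, if_pos h.symm, h]
    have := congrFun (congrFun (hY q.2).eq p.1) q.1
    rw [Matrix.conjTranspose_apply] at this
    exact this
  · rw [if_neg h, if_neg (Ne.symm h)]; simp

theorem bd_mono (Y : X → Matrix S S ℂ) (t : X → ℂ) (φ : X → X) (p q : S × X) :
    (bd Y * mono S t φ) p q = if q.2 = φ p.2 then t p.2 * Y p.2 p.1 q.1 else 0 := by
  rw [Matrix.mul_apply, Fintype.sum_prod_type]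
  simp only [bd, mono]
  by_cases h : q.2 = φ p.2
  · rw [if_pos h, Finset.sum_eq_single q.1]
    · rw [Finset.sum_eq_single p.2]
      · simp [Prod.ext_iff, h, mul_comm]
      · intro b _ hb; simp [Ne.symm hb]
      · simp
    · intro a _ ha
      refine Finset.sum_eq_zero (fun b _ => ?_)
      simp [Prod.ext_iff, Ne.symm ha]
    · simp
  · rw [if_neg h]
    refine Finset.sum_eq_zero (fun a _ => Finset.sum_eq_zero (fun b _ => ?_))
    by_cases h1 : p.2 = b
    · have h2 : ¬ q.2 = φ b := by rw [← h1]; exact h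
      simp [Prod.ext_iff, h2]
    · simp [h1]

theorem mono_bd (Y : X → Matrix S S ℂ) (t : X → ℂ) (φ : X → X) (p q : S × X) :
    (mono S t φ * bd Y) p q = if q.2 = φ p.2 then t p.2 * Y (φ p.2) p.1 q.1 else 0 := by
  rw [mono_mul]
  simp only [bd]
  by_cases h : q.2 = φ p.2
  · simp [h]
  · simp [h, Ne.symm h]

end mono

section cube

variable {n : ℕ}

/-- flip one coordinate -/
def flip (i : Fin n) (x : Fin n → Bool) : Fin n → Bool := Function.update x i (!x i)

/-- sign of a bit -/
def bs (b : Bool) : ℂ := if b then -1 else 1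

/-- Jordan–Wigner sign -/
def sgn (i : Fin n) (x : Fin n → Bool) : ℂ := ∏ j ∈ Finset.univ.filter (· < i), bs (x j)

/-- parity sign -/
def par (x : Fin n → Bool) : ℂ := ∏ j, bs (x j)

theorem bs_sq (b : Bool) : bs b * bs b = 1 := by cases b <;> simp [bs]

theorem bs_not (b : Bool) : bs (!b) = - bs b := by cases b <;> simp [bs]

theorem star_bs (b : Bool) : star (bs b) = bs b := by cases b <;> simp [bs]

theorem sgn_sq (i : Fin n) (x : Fin n → Bool) : sgn i x * sgn i x = 1 := by
  rw [sgn, ← Finset.prod_mul_distrib]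
  exact Finset.prod_eq_one (fun j _ => bs_sq _)

theorem par_sq (x : Fin n → Bool) : par x * par x = 1 := by
  rw [par, ← Finset.prod_mul_distrib]
  exact Finset.prod_eq_one (fun j _ => bs_sq _)

theorem star_sgn (i : Fin n) (x : Fin n → Bool) : star (sgn i x) = sgn i x := by
  rw [sgn, star_prod]
  exact Finset.prod_congr rfl (fun j _ => star_bs _)

theorem flip_flip (i : Fin n) (x : Fin n → Bool) : flip i (flip i x) = x := by
  ext j
  by_cases h : j = i
  · subst h; simp [flip]
  · simp [flip, h]

theorem flip_comm (i j : Fin n) (x : Fin n → Bool) : flip i (flip j x) = flip j (flip i x) := by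
  by_cases hij : i = j
  · subst hij; rfl
  ext k
  simp only [flip, Function.update_apply]
  by_cases h1 : k = i <;> by_cases h2 : k = j
  · exact absurd (h1.symm.trans h2) hij
  · subst h1; simp [h2]
  · subst h2; simp [h1]
  · simp [h1, h2]

theorem sgn_flip_lt {i j : Fin n} (h : j < i) (x : Fin n → Bool) :
    sgn i (flip j x) = - sgn i x := by
  have hj : j ∈ Finset.univ.filter (· < i) := by simp [h]
  rw [sgn, sgn, ← Finset.mul_prod_erase _ _ hj, ← Finset.mul_prod_erase _ _ hj]
  have h1 : ∏ k ∈ (Finset.univ.filter (· < i)).erase j, bs (flip j x k) =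
      ∏ k ∈ (Finset.univ.filter (· < i)).erase j, bs (x k) := by
    refine Finset.prod_congr rfl (fun k hk => ?_)
    have : k ≠ j := Finset.ne_of_mem_erase hk
    simp [flip, this]
  rw [h1]
  simp [flip, bs_not]

theorem sgn_flip_ge {i j : Fin n} (h : ¬ j < i) (x : Fin n → Bool) :
    sgn i (flip j x) = sgn i x := by
  rw [sgn, sgn]
  refine Finset.prod_congr rfl (fun k hk => ?_)
  have : k ≠ j := by
    rintro rfl
    exact h (by simpa using hk)
  simp [flip, this]

theorem par_flip (i : Fin n) (x : Fin n → Bool) : par (flip i x) = - par x := by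
  rw [par, par, ← Finset.mul_prod_erase _ _ (Finset.mem_univ i),
    ← Finset.mul_prod_erase Finset.univ (fun j => bs (x j)) (Finset.mem_univ i)]
  have h1 : ∏ k ∈ Finset.univ.erase i, bs (flip i x k) =
      ∏ k ∈ Finset.univ.erase i, bs (x k) := by
    refine Finset.prod_congr rfl (fun k hk => ?_)
    have : k ≠ i := Finset.ne_of_mem_erase hk
    simp [flip, this]
  rw [h1]
  simp [flip, bs_not]

/-- the antipode -/
def anti (x : Fin n → Bool) : Fin n → Bool := fun i => !x i

theorem anti_anti (x : Fin n → Bool) : anti (anti x) = x := by ext i; simp [anti]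

theorem par_anti (hn : Odd n) (x : Fin n → Bool) : par (anti x) = - par x := by
  rw [par, par]
  simp only [anti, bs_not]
  rw [Finset.prod_neg]
  simp [hn.neg_one_pow]

variable (S : Type*) [Fintype S] [DecidableEq S]

/-- the edge operators -/
def E (i : Fin n) : Matrix (S × (Fin n → Bool)) (S × (Fin n → Bool)) ℂ := mono S (sgn i) (flip i)

theorem E_sq (i : Fin n) : E S i * E S i = 1 := by
  rw [E, mono_mul_mono, ← mono_one]
  congr 1
  · ext x; rw [sgn_flip_ge (lt_irrefl i), sgn_sq]
  · ext x; rw [flip_flip]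

theorem E_anti (i j : Fin n) (hij : i ≠ j) : E S i * E S j = -(E S j * E S i) := by
  rw [E, E, mono_mul_mono, mono_mul_mono, ← mono_neg]
  congr 1
  · ext x
    rcases lt_or_gt_of_ne hij with h | h
    · rw [sgn_flip_lt h, sgn_flip_ge (not_lt.mpr h.le)]; ring
    · rw [sgn_flip_lt (i := i) (j := j) h, sgn_flip_ge (not_lt.mpr h.le)]; ring
  · ext x; rw [flip_comm]

omit [Fintype S] in
theorem E_herm (i : Fin n) : (E S i).IsHermitian :=
  mono_hermitian _ _ (flip_flip i) (fun x => by rw [sgn_flip_ge (lt_irrefl i), star_sgn])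

/-- product of edge operators is monomial -/
theorem prod_E_list : ∀ l : List (Fin n), l.Nodup → ∃ t : (Fin n → Bool) → ℂ,
    (l.map (E S)).prod = mono S t (fun x j => if j ∈ l then !x j else x j)
  | [], _ => ⟨fun _ => 1, by
      rw [List.map_nil, List.prod_nil, ← mono_one]
      congr 1⟩
  | i :: l, h => by
      obtain ⟨t, ht⟩ := prod_E_list l (List.nodup_cons.mp h).2
      refine ⟨fun x => sgn i x * t (flip i x), ?_⟩
      rw [List.map_cons, List.prod_cons, ht, E, mono_mul_mono]
      congr 1
      ext x j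
      have hi : i ∉ l := (List.nodup_cons.mp h).1
      by_cases h1 : j = i
      · subst h1; simp [hi, flip]
      · simp [h1, flip]

theorem prod_E : ∃ t : (Fin n → Bool) → ℂ,
    (List.ofFn (E S (n := n))).prod = mono S t anti := by
  obtain ⟨t, ht⟩ := prod_E_list S (List.finRange n) (List.nodup_finRange n)
  refine ⟨t, ?_⟩
  rw [List.ofFn_eq_map, ht]
  congr 1
  ext x j
  simp [anti]

theorem comm_sign {R : Type*} [Ring R] {k : ℕ} (x : R) (y : Fin k → R) (s : Fin k → ℤ)
    (h : ∀ j, x * y j = s j • (y j * x)) :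
    x * (List.ofFn y).prod = (∏ j, s j) • ((List.ofFn y).prod * x) := by
  induction k with
  | zero => simp
  | succ k ih =>
    rw [List.ofFn_succ, List.prod_cons, ← mul_assoc, h 0, smul_mul_assoc, mul_assoc,
      ih (fun j => y j.succ) (fun j => s j.succ) (fun j => h _), mul_smul_comm, smul_smul,
      Fin.prod_univ_succ, mul_assoc]

theorem E_prod_comm (hn : Odd n) (i : Fin n) :
    E S i * (List.ofFn (E S (n := n))).prod = (List.ofFn (E S (n := n))).prod * E S i := by
  rw [comm_sign (E S i) (E S) (fun j => if j = i then 1 else -1)]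
  · rw [← Finset.mul_prod_erase _ _ (Finset.mem_univ i)]
    have : ∏ k ∈ Finset.univ.erase i, (if k = i then (1 : ℤ) else -1) = 1 := by
      rw [Finset.prod_congr rfl (g := fun _ => (-1 : ℤ))
        (fun k hk => by rw [if_neg (Finset.ne_of_mem_erase hk)]), Finset.prod_const,
        Finset.card_erase_of_mem (Finset.mem_univ i), Finset.card_univ, Fintype.card_fin]
      obtain ⟨k, rfl⟩ := hn
      simp
    rw [this]; simp
  · intro j
    by_cases h : j = i
    · subst h; simp
    · rw [if_neg h, E_anti S i j (Ne.symm h)]; simp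

theorem E_prod_star : ∃ δ : ℂ, (δ = 1 ∨ δ = -1) ∧
    ((List.ofFn (E S (n := n))).prod)ᴴ = δ • (List.ofFn (E S (n := n))).prod := by
  have h1 : ((List.ofFn (E S (n := n))).prod)ᴴ = (List.ofFn (E S ∘ Fin.revPerm)).prod := by
    rw [Matrix.conjTranspose_list_prod]
    congr 1
    have h2 : List.map Matrix.conjTranspose (List.ofFn (E S (n := n))) = List.ofFn (E S) := by
      rw [List.map_ofFn]
      congr 1
      ext i : 1
      exact (E_herm S i).eq
    rw [h2]
    apply List.ext_getElem
    · simp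
    · intro i h3 h4
      simp only [List.getElem_reverse, List.getElem_ofFn, Function.comp, List.length_ofFn]
      congr 1
      ext
      simp [Fin.rev]
      omega
  rw [h1, prod_perm_anti _ _ (fun i j hij => E_anti S i j hij)]
  refine ⟨((Perm.sign (Fin.revPerm : Perm (Fin n)) : ℤ) : ℂ), ?_, ?_⟩
  · rcases Int.units_eq_one_or (Perm.sign (Fin.revPerm : Perm (Fin n))) with h | h <;> simp [h]
  · rcases Int.units_eq_one_or (Perm.sign (Fin.revPerm : Perm (Fin n))) with h | h <;> simp [h]

theorem E_prod_unitary :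
    ((List.ofFn (E S (n := n))).prod)ᴴ * (List.ofFn (E S (n := n))).prod = 1 := by
  have key : ∀ l : List (Fin n), ((l.map (E S)).prod)ᴴ * (l.map (E S)).prod = 1 := by
    intro l
    induction l with
    | nil => simp
    | cons i l ih =>
      rw [List.map_cons, List.prod_cons, Matrix.conjTranspose_mul, (E_herm S i).eq]
      calc ((l.map (E S)).prod)ᴴ * E S i * (E S i * (l.map (E S)).prod)
          = ((l.map (E S)).prod)ᴴ * (E S i * E S i) * (l.map (E S)).prod := by noncomm_ring
        _ = 1 := by rw [E_sq, mul_one, ih]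
  have := key (List.finRange n)
  rwa [← List.ofFn_eq_map] at this

/-- The reduction for labelled worlds: `Y` any field of self-adjoint involutions with
`Y (-x) = - Y x`. -/
theorem world_reduction (hn : Odd n) [Nonempty S] (Y : (Fin n → Bool) → Matrix S S ℂ)
    (hY2 : ∀ x, Y x * Y x = 1) (hYh : ∀ x, (Y x).IsHermitian) (hYT : ∀ x, Y (anti x) = - Y x) :
    ∃ ξ : Fin n → ℝ, ∑ i, ξ i ^ 2 = 1 ∧ ∃ w : (Fin n → Bool) → S → ℂ, w ≠ 0 ∧
      (∀ x, ∑ i, ((ξ i : ℂ) * sgn i x) • w (flip i x) = w x) ∧
      (∀ x, ∑ i, ((ξ i : ℂ) * sgn i x) • (Y (flip i x)).mulVec (w (flip i x)) =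
        -((Y x).mulVec (w x))) := by
  obtain ⟨δ, hδ, hstar⟩ := E_prod_star S (n := n)
  have hun := E_prod_unitary S (n := n)
  obtain ⟨t, ht⟩ := prod_E S (n := n)
  set P0 := (List.ofFn (E S (n := n))).prod with hP0
  have hδ2 : δ * δ = 1 := by rcases hδ with h | h <;> simp [h]
  have hP02 : P0 * P0 = δ • (1 : Matrix (S × (Fin n → Bool)) (S × (Fin n → Bool)) ℂ) := by
    rw [hstar, smul_mul_assoc] at hun
    rw [← hun, smul_smul, hδ2, one_smul]
  obtain ⟨c, hc, hcs⟩ : ∃ c : ℂ, c * c = δ ∧ star c * δ = c := by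
    rcases hδ with h | h
    · exact ⟨1, by simp [h], by simp [h]⟩
    · exact ⟨Complex.I, by simp [h], by simp [h]⟩
  have hc0 : c ≠ 0 := by
    rintro rfl
    rcases hδ with h | h <;> simp [h] at hc
  have key := reduction hn (E S) (E_sq S) (E_anti S) (E_herm S) (c • P0)
    (by rw [smul_mul_smul_comm, hP02, hc, smul_smul, hδ2, one_smul])
    (by
      unfold Matrix.IsHermitian
      rw [Matrix.conjTranspose_smul, hstar, smul_smul, hcs])
    (fun i => by rw [smul_mul_assoc, mul_smul_comm, E_prod_comm S hn i])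
    c⁻¹ (by rw [smul_smul, inv_mul_cancel₀ hc0, one_smul])
    (mono S par (fun x => x))
    (by
      rw [mono_mul_mono, ← mono_one]
      congr 1
      ext x; exact par_sq x)
    (fun i => by
      rw [E, mono_mul_mono, mono_mul_mono, ← mono_neg]
      congr 1
      ext x; rw [par_flip]; ring)
    (by
      rw [ht, mul_smul_comm, smul_mul_assoc, mono_mul_mono, mono_mul_mono, ← smul_neg, ← mono_neg]
      congr 2
      ext x; rw [par_anti hn]; ring)
    (bd Y)
    (by
      ext p q; rw [mono_bd, bd_mono])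
    (by rw [bd_mul, ← bd_one]; congr 1; ext x : 1; exact hY2 x)
    (bd_hermitian Y hYh)
    (by
      rw [ht, mul_smul_comm, smul_mul_assoc, ← smul_neg]
      congr 1
      ext p q
      rw [Matrix.neg_apply, mono_bd, bd_mono]
      by_cases h : q.2 = anti p.2
      · rw [if_pos h, if_pos h, hYT]; simp
      · rw [if_neg h, if_neg h]; simp)
  obtain ⟨ξ, hξ, w, hw, hw1, hw2⟩ := key
  have hD : ∀ f : S × (Fin n → Bool) → ℂ, ∀ x a,
      (∑ i, (ξ i : ℂ) • E S i).mulVec f (a, x) =
        ∑ i, ((ξ i : ℂ) * sgn i x) * f (a, flip i x) := by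
    intro f x a
    rw [Matrix.sum_mulVec, Finset.sum_apply]
    refine Finset.sum_congr rfl (fun i _ => ?_)
    rw [Matrix.smul_mulVec, Pi.smul_apply, E, mono_mulVec, smul_eq_mul]; ring
  refine ⟨ξ, hξ, fun x a => w (a, x), ?_, ?_, ?_⟩
  · intro h
    apply hw
    ext ⟨a, x⟩
    exact congrFun (congrFun h x) a
  · intro x
    ext a
    have := congrFun hw1 (a, x)
    rw [hD] at this
    simpa using this
  · intro x
    ext a
    have := congrFun hw2 (a, x)
    rw [hD] at this
    simp only [bd_mulVec, Pi.neg_apply] at this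
    simpa using this

end cube

end Pool.Agent.C1End
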