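import Pool.Agent.C1End.Alt

/-! Analytic part of the flux argument: a charge without source. -/

namespace Pool.Agent.C1End

open Equiv Finset MeasureTheory

variable {R : Type*} [NormedRing R] [NormedAlgebra ℝ R] [CompleteSpace R]

/-- the `j`-th component of the vector field -/
noncomputable def XF {n : ℕ} (τ : R → ℂ) (a : Fin (n + 1) → R) (f : R) (j : Fin (n + 1)) : ℂ :=
  ∑ σ : Perm (Fin (n + 1)), if σ 0 = j then
    ((Perm.sign σ : ℤ) : ℂ) * τ (List.ofFn (fun k : Fin n => f * a (σ k.succ))).prod else 0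

/-- the linear pencil -/
noncomputable def pen {n : ℕ} (a : Fin (n + 1) → R) : (Fin (n + 1) → ℝ) →L[ℝ] R :=
  ∑ j, (ContinuousLinearMap.proj j : (Fin (n + 1) → ℝ) →L[ℝ] ℝ).smulRight (a j)

omit [CompleteSpace R] in
theorem pen_apply {n : ℕ} (a : Fin (n + 1) → R) (q : Fin (n + 1) → ℝ) :
    pen a q = ∑ j, q j • a j := by
  simp [pen]

omit [CompleteSpace R] in
theorem pen_single {n : ℕ} (a : Fin (n + 1) → R) (j : Fin (n + 1)) :
    pen a (Pi.single j 1) = a j := by
  rw [pen_apply, Finset.sum_eq_single j]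
  · simp
  · intro b _ hb; simp [hb]
  · simp

/-- resolvent -/
noncomputable def res {n : ℕ} (a : Fin (n + 1) → R) (B : R) (q : Fin (n + 1) → ℝ) : R :=
  Ring.inverse (B + pen a q)

theorem hasFDerivAt_res {n : ℕ} (a : Fin (n + 1) → R) (B : R) (q : Fin (n + 1) → ℝ)
    (h : IsUnit (B + pen a q)) :
    HasFDerivAt (res a B)
      ((-ContinuousLinearMap.mulLeftRight ℝ R (res a B q) (res a B q)).comp (pen a)) q := by
  obtain ⟨u, hu⟩ := h
  have h1 : HasFDerivAt (fun q => B + pen a q) (pen a) q := (pen a).hasFDerivAt.const_add B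
  have h2 := hasFDerivAt_ringInverse (𝕜 := ℝ) u
  rw [hu] at h2
  have h3 := h2.comp q h1
  have e : res a B q = ↑u⁻¹ := by rw [res, ← hu, Ring.inverse_unit]
  rw [e]
  exact h3

variable (τ : R →L[ℝ] ℂ)

/-- derivative of one product -/
theorem hasFDerivAt_prod {n : ℕ} (a : Fin (n + 1) → R) (B : R) (q : Fin (n + 1) → ℝ)
    (h : IsUnit (B + pen a q)) (s : Fin n → Fin (n + 1)) :
    ∃ L : (Fin (n + 1) → ℝ) →L[ℝ] ℂ,
      HasFDerivAt (fun q => τ (List.ofFn (fun k => res a B q * a (s k))).prod) L q ∧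
      ∀ v, L v = ∑ p : Fin n, - τ (List.ofFn (Function.update (fun k => res a B q * a (s k)) p
        ((res a B q * pen a v) * (res a B q * a (s p))))).prod := by
  set M := ContinuousMultilinearMap.mkPiAlgebraFin ℝ n R
  have hr := hasFDerivAt_res a B q h
  have h1 : HasFDerivAt (fun q => fun k : Fin n => res a B q * a (s k))
      (ContinuousLinearMap.pi fun k =>
        ((ContinuousLinearMap.mul ℝ R).flip (a (s k))).comp
        ((-ContinuousLinearMap.mulLeftRight ℝ R (res a B q) (res a B q)).comp (pen a))) q := by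
    rw [hasFDerivAt_pi]
    intro k
    exact ((ContinuousLinearMap.mul ℝ R).flip (a (s k))).hasFDerivAt.comp q hr
  have h2 := (M.hasFDerivAt (x := fun k : Fin n => res a B q * a (s k))).comp q h1
  have h3 := τ.hasFDerivAt.comp q h2
  refine ⟨_, h3, fun v => ?_⟩
  simp only [ContinuousLinearMap.comp_apply, ContinuousMultilinearMap.linearDeriv_apply, map_sum]
  refine Finset.sum_congr rfl (fun p _ => ?_)
  simp only [ContinuousLinearMap.pi_apply, ContinuousLinearMap.comp_apply,
    ContinuousLinearMap.flip_apply, ContinuousLinearMap.mul_apply', _root_.neg_apply,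
    ContinuousLinearMap.mulLeftRight_apply]
  rw [← map_neg]
  congr 1
  have h4 : -(res a B q * pen a v * res a B q) * a (s p) =
      -((res a B q * pen a v) * (res a B q * a (s p))) := by noncomm_ring
  rw [h4]
  change M.toMultilinearMap _ = _
  rw [MultilinearMap.map_update_neg]
  rfl

/-- one component has a Frechet derivative -/
theorem hasFDerivAt_XF {n : ℕ} (a : Fin (n + 1) → R) (B : R) (q : Fin (n + 1) → ℝ)
    (h : IsUnit (B + pen a q)) (j : Fin (n + 1)) :
    ∃ L : (Fin (n + 1) → ℝ) →L[ℝ] ℂ,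
      HasFDerivAt (fun q => XF τ a (res a B q) j) L q ∧
      ∀ v, L v = ∑ σ : Perm (Fin (n + 1)), if σ 0 = j then ((Perm.sign σ : ℤ) : ℂ) *
        ∑ p : Fin n, - τ (List.ofFn (Function.update (fun k : Fin n => res a B q * a (σ k.succ)) p
        ((res a B q * pen a v) * (res a B q * a (σ p.succ))))).prod else 0 := by
  choose L hL using fun σ : Perm (Fin (n+1)) =>
    hasFDerivAt_prod τ a B q h (fun k : Fin n => σ k.succ)
  refine ⟨∑ σ : Perm (Fin (n + 1)), if σ 0 = j then ((Perm.sign σ : ℤ) : ℂ) • L σ else 0,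
    ?_, ?_⟩
  · unfold XF
    refine HasFDerivAt.fun_sum (fun σ _ => ?_)
    split_ifs with hσ
    · exact (hL σ).1.const_mul _
    · exact hasFDerivAt_const _ _
  · intro v
    simp only [_root_.sum_apply]
    refine Finset.sum_congr rfl (fun σ _ => ?_)
    split_ifs with hσ
    · rw [_root_.smul_apply, (hL σ).2 v, smul_eq_mul]
    · rfl

/-- the divergence vanishes -/
theorem div_XF {n : ℕ} (hn : Odd n) (hτ : ∀ x y, τ (x * y) = τ (y * x))
    (a : Fin (n + 1) → R) (B : R) (q : Fin (n + 1) → ℝ) (h : IsUnit (B + pen a q)) :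
    ∑ j, fderiv ℝ (fun q => XF τ a (res a B q) j) q (Pi.single j 1) = 0 := by
  have h1 : ∀ j, fderiv ℝ (fun q => XF τ a (res a B q) j) q (Pi.single j 1) =
      ∑ σ : Perm (Fin (n + 1)), if σ 0 = j then ((Perm.sign σ : ℤ) : ℂ) *
        ∑ p : Fin n, - τ (List.ofFn (Function.update (fun k : Fin n => res a B q * a (σ k.succ)) p
        ((res a B q * a j) * (res a B q * a (σ p.succ))))).prod else 0 := by
    intro j
    obtain ⟨L, hL1, hL2⟩ := hasFDerivAt_XF τ a B q h j
    rw [hL1.fderiv, hL2, pen_single]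
  rw [Finset.sum_congr rfl (fun j _ => h1 j), Finset.sum_comm]
  have h2 : ∀ σ : Perm (Fin (n+1)), (∑ j, if σ 0 = j then ((Perm.sign σ : ℤ) : ℂ) *
        ∑ p : Fin n, - τ (List.ofFn (Function.update (fun k : Fin n => res a B q * a (σ k.succ)) p
        ((res a B q * a j) * (res a B q * a (σ p.succ))))).prod else 0) =
      ∑ p : Fin n, -(((Perm.sign σ : ℤ) : ℂ) *
        τ (List.ofFn (Function.update (fun k : Fin n => res a B q * a (σ k.succ)) p
        ((res a B q * a (σ 0)) * (res a B q * a (σ p.succ))))).prod) := by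
    intro σ
    rw [Finset.sum_ite_eq]
    simp [Finset.mul_sum]
  rw [Finset.sum_congr rfl (fun σ _ => h2 σ), Finset.sum_comm]
  refine Finset.sum_eq_zero (fun p _ => ?_)
  rw [Finset.sum_neg_distrib, neg_eq_zero]
  exact div_identity hn τ hτ (fun l => res a B q * a l) p

/-! ### the cutoff -/

/-- square of the euclidean norm -/
def nsq {n : ℕ} (q : Fin (n + 1) → ℝ) : ℝ := ∑ j, q j ^ 2

/-- smooth radial cutoff, `1` on `nsq ≤ 1`, `0` on `2 ≤ nsq` -/
noncomputable def cut {n : ℕ} (q : Fin (n + 1) → ℝ) : ℝ := Real.smoothTransition (2 - nsq q)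

/-- minus the radial derivative of the cutoff -/
noncomputable def hcut {n : ℕ} (q : Fin (n + 1) → ℝ) : ℝ :=
  2 * deriv Real.smoothTransition (2 - nsq q)

theorem contDiff_nsq {n : ℕ} : ContDiff ℝ 2 (nsq (n := n)) := by
  unfold nsq
  fun_prop

theorem hasFDerivAt_nsq {n : ℕ} (q : Fin (n + 1) → ℝ) :
    HasFDerivAt (nsq (n := n)) (∑ j, (2 * q j) • (ContinuousLinearMap.proj j :
      (Fin (n + 1) → ℝ) →L[ℝ] ℝ)) q := by
  unfold nsq
  refine HasFDerivAt.fun_sum (fun j _ => ?_)
  have h := ((ContinuousLinearMap.proj j : (Fin (n + 1) → ℝ) →L[ℝ] ℝ).hasFDerivAt (x := q)).pow 2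
  simpa using h

theorem contDiff_cut {n : ℕ} : ContDiff ℝ 2 (cut (n := n)) :=
  (Real.smoothTransition.contDiff (n := 2)).comp (contDiff_const.sub contDiff_nsq)

theorem fderiv_cut {n : ℕ} (q : Fin (n + 1) → ℝ) (j : Fin (n + 1)) :
    fderiv ℝ (cut (n := n)) q (Pi.single j 1) = - (q j * hcut q) := by
  have h1 : HasDerivAt Real.smoothTransition (deriv Real.smoothTransition (2 - nsq q))
      (2 - nsq q) :=
    ((Real.smoothTransition.contDiff (n := 1)).differentiable (by norm_num) _).hasDerivAt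
  have h2 := h1.comp_hasFDerivAt q ((hasFDerivAt_nsq q).const_sub 2)
  have h3 : fderiv ℝ (cut (n := n)) q = _ := h2.fderiv
  rw [h3]
  simp only [_root_.smul_apply, _root_.neg_apply, _root_.sum_apply,
    ContinuousLinearMap.proj_apply, smul_eq_mul, hcut]
  rw [Finset.sum_eq_single j]
  · simp; ring
  · intro b _ hb; simp [hb]
  · simp

theorem nsq_nonneg {n : ℕ} (q : Fin (n + 1) → ℝ) : 0 ≤ nsq q :=
  Finset.sum_nonneg (fun j _ => sq_nonneg _)

theorem hcut_nonneg {n : ℕ} (q : Fin (n + 1) → ℝ) : 0 ≤ hcut q := by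
  unfold hcut
  have := Real.smoothTransition.monotone.deriv_nonneg (x := 2 - nsq q)
  linarith

theorem continuous_hcut {n : ℕ} : Continuous (hcut (n := n)) := by
  unfold hcut
  have h1 : Continuous (deriv Real.smoothTransition) :=
    (Real.smoothTransition.contDiff (n := 1)).continuous_deriv (by norm_num)
  exact continuous_const.mul (h1.comp (continuous_const.sub contDiff_nsq.continuous))

theorem hcut_eq_zero_of_lt {n : ℕ} (q : Fin (n + 1) → ℝ) (h : nsq q < 1) : hcut q = 0 := by
  unfold hcut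
  have h1 : Real.smoothTransition =ᶠ[nhds (2 - nsq q)] fun _ => 1 := by
    filter_upwards [lt_mem_nhds (show (1:ℝ) < 2 - nsq q by linarith)] with x hx
    exact Real.smoothTransition.one_of_one_le hx.le
  rw [h1.deriv_eq]; simp

theorem hcut_eq_zero_of_gt {n : ℕ} (q : Fin (n + 1) → ℝ) (h : 2 < nsq q) : hcut q = 0 := by
  unfold hcut
  have h1 : Real.smoothTransition =ᶠ[nhds (2 - nsq q)] fun _ => 0 := by
    filter_upwards [gt_mem_nhds (show 2 - nsq q < (0:ℝ) by linarith)] with x hx
    exact Real.smoothTransition.zero_of_nonpos hx.le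
  rw [h1.deriv_eq]; simp

/-- the compact ball -/
def ballK (n : ℕ) : Set (Fin (n + 1) → ℝ) := {q | nsq q ≤ 2}

theorem isCompact_ballK (n : ℕ) : IsCompact (ballK n) := by
  have hcl : IsClosed (ballK n) := isClosed_le contDiff_nsq.continuous continuous_const
  refine (isCompact_closedBall (0 : Fin (n + 1) → ℝ) 2).of_isClosed_subset hcl ?_
  intro q hq
  rw [mem_closedBall_zero_iff, pi_norm_le_iff_of_nonneg (by norm_num)]
  intro j
  have h1 : q j ^ 2 ≤ nsq q :=
    Finset.single_le_sum (f := fun j => q j ^ 2) (fun i _ => sq_nonneg _) (Finset.mem_univ j)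
  have h2 : q j ^ 2 ≤ 2 := h1.trans hq
  rw [Real.norm_eq_abs]
  exact abs_le_of_sq_le_sq (by nlinarith) (by norm_num)

/-! ### integration by parts -/

theorem contDiff_res {n : ℕ} (a : Fin (n + 1) → R) (B : R)
    (hB : ∀ q, IsUnit (B + pen a q)) : ContDiff ℝ 2 (res a B) := by
  rw [contDiff_iff_contDiffAt]
  intro q
  obtain ⟨u, hu⟩ := hB q
  have h1 : ContDiffAt ℝ 2 (fun q => B + pen a q) q :=
    contDiffAt_const.add (pen a).contDiff.contDiffAt
  have h2 : ContDiffAt ℝ 2 Ring.inverse ((fun q => B + pen a q) q) := by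
    show ContDiffAt ℝ 2 Ring.inverse (B + pen a q)
    rw [← hu]
    exact contDiffAt_ringInverse ℝ u
  exact h2.comp q h1

theorem contDiff_XF {n : ℕ} (a : Fin (n + 1) → R) (B : R)
    (hB : ∀ q, IsUnit (B + pen a q)) (j : Fin (n + 1)) :
    ContDiff ℝ 2 (fun q => XF τ a (res a B q) j) := by
  unfold XF
  refine ContDiff.sum (fun σ _ => ?_)
  split_ifs with hσ
  · refine contDiff_const.mul (τ.contDiff.comp ?_)
    have h1 : ContDiff ℝ 2 (fun q => fun k : Fin n => res a B q * a (σ k.succ)) := by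
      rw [contDiff_pi]
      intro k
      exact (contDiff_res a B hB).mul contDiff_const
    exact (ContinuousMultilinearMap.contDiff (ContinuousMultilinearMap.mkPiAlgebraFin ℝ n R)).comp h1
  · exact contDiff_const

/-- the radial part of the field -/
noncomputable def rad {n : ℕ} (τ : R → ℂ) (a : Fin (n + 1) → R) (B : R)
    (q : Fin (n + 1) → ℝ) : ℂ := ∑ j, (q j : ℂ) * XF τ a (res a B q) j

theorem hasCompactSupport_cut {n : ℕ} : HasCompactSupport (cut (n := n)) := by
  refine HasCompactSupport.intro (isCompact_ballK n) (fun q hq => ?_)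
  have h : 2 < nsq q := not_le.mp hq
  exact Real.smoothTransition.zero_of_nonpos (by linarith)

theorem flux_zero {n : ℕ} (hn : Odd n) (hτ : ∀ x y, τ (x * y) = τ (y * x))
    (a : Fin (n + 1) → R) (B : R) (hB : ∀ q, IsUnit (B + pen a q)) :
    ∫ q : Fin (n + 1) → ℝ, (hcut q : ℂ) * rad τ a B q = 0 := by
  have hX := contDiff_XF τ a B hB
  have hc : ContDiff ℝ 2 (cut (n := n)) := contDiff_cut
  -- continuity and supports
  have hfX : ∀ j, Continuous (fun q : Fin (n+1) → ℝ =>
      fderiv ℝ (fun q => XF τ a (res a B q) j) q (Pi.single j 1)) := fun j =>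
    ((hX j).continuous_fderiv (by norm_num)).clm_apply continuous_const
  have hfc : ∀ j, Continuous (fun q : Fin (n+1) → ℝ => fderiv ℝ (cut (n := n)) q (Pi.single j 1)) :=
    fun j => (hc.continuous_fderiv (by norm_num)).clm_apply continuous_const
  have hfs : ∀ j, HasCompactSupport
      (fun q : Fin (n+1) → ℝ => fderiv ℝ (cut (n := n)) q (Pi.single j 1)) := by
    intro j
    refine HasCompactSupport.intro (isCompact_ballK n) (fun q hq => ?_)
    rw [fderiv_cut, hcut_eq_zero_of_gt q (not_le.mp hq)]; simp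
  have i1 : ∀ j, Integrable (fun q : Fin (n+1) → ℝ =>
      fderiv ℝ (cut (n := n)) q (Pi.single j 1) • XF τ a (res a B q) j) := fun j =>
    ((hfc j).smul (hX j).continuous).integrable_of_hasCompactSupport ((hfs j).smul_right)
  have i2 : ∀ j, Integrable (fun q : Fin (n+1) → ℝ =>
      cut q • fderiv ℝ (fun q => XF τ a (res a B q) j) q (Pi.single j 1)) := fun j =>
    (hc.continuous.smul (hfX j)).integrable_of_hasCompactSupport (hasCompactSupport_cut.smul_right)
  have i3 : ∀ j, Integrable (fun q : Fin (n+1) → ℝ => cut q • XF τ a (res a B q) j) := fun j =>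
    (hc.continuous.smul (hX j).continuous).integrable_of_hasCompactSupport
      (hasCompactSupport_cut.smul_right)
  have key : ∀ j, ∫ q : Fin (n+1) → ℝ,
      cut q • fderiv ℝ (fun q => XF τ a (res a B q) j) q (Pi.single j 1) =
      - ∫ q : Fin (n+1) → ℝ, fderiv ℝ (cut (n := n)) q (Pi.single j 1) • XF τ a (res a B q) j :=
    fun j => integral_smul_fderiv_eq_neg_fderiv_smul_of_integrable (i1 j) (i2 j) (i3 j)
      (fun q _ => (hc.differentiable (by norm_num)) q)
      (fun q _ => ((hX j).differentiable (by norm_num)) q)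
  have s1 : ∑ j, ∫ q : Fin (n+1) → ℝ,
      cut q • fderiv ℝ (fun q => XF τ a (res a B q) j) q (Pi.single j 1) = 0 := by
    rw [← integral_finsetSum _ (fun j _ => i2 j)]
    have : ∀ q : Fin (n+1) → ℝ,
        ∑ j, cut q • fderiv ℝ (fun q => XF τ a (res a B q) j) q (Pi.single j 1) = 0 := by
      intro q
      rw [← Finset.smul_sum, div_XF τ hn hτ a B q (hB q), smul_zero]
    simp only [this, integral_zero]
  rw [Finset.sum_congr rfl (fun j _ => key j), Finset.sum_neg_distrib, neg_eq_zero,
    ← integral_finsetSum _ (fun j _ => i1 j)] at s1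
  have s2 : ∀ q : Fin (n+1) → ℝ,
      ∑ j, fderiv ℝ (cut (n := n)) q (Pi.single j 1) • XF τ a (res a B q) j =
      - ((hcut q : ℂ) * rad τ a B q) := by
    intro q
    rw [rad, Finset.mul_sum, ← Finset.sum_neg_distrib]
    refine Finset.sum_congr rfl (fun j _ => ?_)
    rw [fderiv_cut, Complex.real_smul]
    push_cast; ring
  simp only [s2, integral_neg, neg_eq_zero] at s1
  exact s1

/-! ### the limit -/

theorem nsq_pos {n : ℕ} {q : Fin (n + 1) → ℝ} (hq : q ≠ 0) : 0 < nsq q := by
  obtain ⟨j, hj⟩ := Function.ne_iff.mp hq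
  exact Finset.sum_pos' (fun i _ => sq_nonneg _) ⟨j, Finset.mem_univ j, by
    have : q j ≠ 0 := hj
    positivity⟩

theorem continuousAt_rad {n : ℕ} (a : Fin (n + 1) → R) (A : R) (t : ℝ) (q : Fin (n + 1) → ℝ)
    (h : IsUnit (t • A + pen a q)) :
    ContinuousAt (fun p : ℝ × (Fin (n + 1) → ℝ) => rad τ a (p.1 • A) p.2) (t, q) := by
  have hr : ContinuousAt (fun p : ℝ × (Fin (n + 1) → ℝ) => res a (p.1 • A) p.2) (t, q) := by
    obtain ⟨u, hu⟩ := h
    have h1 : ContinuousAt (fun p : ℝ × (Fin (n + 1) → ℝ) => p.1 • A + pen a p.2) (t, q) := by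
      fun_prop
    have h2 : ContinuousAt Ring.inverse (t • A + pen a q) := by
      rw [← hu]; exact NormedRing.inverse_continuousAt u
    exact ContinuousAt.comp (f := fun p : ℝ × (Fin (n + 1) → ℝ) => p.1 • A + pen a p.2)
      (x := (t, q)) h2 h1
  unfold rad XF
  refine tendsto_finsetSum _ (fun j _ => ?_)
  refine ContinuousAt.mul (by fun_prop) ?_
  refine tendsto_finsetSum _ (fun σ _ => ?_)
  by_cases hσ : σ 0 = j
  · simp only [hσ, if_true]
    refine ContinuousAt.mul continuousAt_const ?_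
    refine ContinuousAt.comp (g := τ) τ.continuous.continuousAt ?_
    have h3 : ContinuousAt (fun p : ℝ × (Fin (n + 1) → ℝ) => fun k : Fin n =>
        res a (p.1 • A) p.2 * a (σ k.succ)) (t, q) :=
      continuousAt_pi.2 (fun k => hr.mul continuousAt_const)
    exact ContinuousAt.comp (g := ContinuousMultilinearMap.mkPiAlgebraFin ℝ n R)
      (ContinuousMultilinearMap.cont _).continuousAt h3
  · simp only [hσ, if_false]
    exact continuousAt_const

/-- A charge without source: the flux theorem. -/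
theorem no_regular_pencil {n : ℕ} (hn : Odd n) (hτ : ∀ x y, τ (x * y) = τ (y * x))
    (a : Fin (n + 1) → R) (A : R) (h0 : ∀ q, q ≠ 0 → IsUnit (pen a q))
    (c : ℂ) (hc : c ≠ 0) (g : (Fin (n + 1) → ℝ) → ℝ) (hg : ∀ q, q ≠ 0 → 0 < g q)
    (hrad : ∀ q, q ≠ 0 → rad τ a 0 q = c * g q) :
    ∃ q, ¬ IsUnit (A + pen a q) := by
  by_contra hcon
  replace hcon : ∀ q, IsUnit (A + pen a q) := fun q => by
    by_contra h; exact hcon ⟨q, h⟩
  -- all positive multiples
  have hall : ∀ t : ℝ, t ≠ 0 → ∀ q, IsUnit (t • A + pen a q) := by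
    intro t ht q
    have h1 : t • A + pen a q = t • (A + pen a (t⁻¹ • q)) := by
      rw [smul_add, map_smul, smul_smul, mul_inv_cancel₀ ht, one_smul]
    rw [h1]
    obtain ⟨u, hu⟩ := hcon (t⁻¹ • q)
    exact ⟨(Units.mk0 t ht) • u, by rw [← hu]; rfl⟩
  have hun : ∀ t : ℝ, ∀ q, q ≠ 0 → IsUnit (t • A + pen a q) := by
    intro t q hq
    by_cases ht : t = 0
    · subst ht; simpa using h0 q hq
    · exact hall t ht q
  obtain ⟨F, hF⟩ : ∃ F : ℝ → (Fin (n + 1) → ℝ) → ℂ,
      ∀ t q, F t q = (hcut q : ℂ) * rad τ a (t • A) q := ⟨_, fun _ _ => rfl⟩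
  have hFc : Continuous (Function.uncurry F) := by
    rw [continuous_iff_continuousAt]
    rintro ⟨t, q⟩
    by_cases hq : nsq q < 1
    · have : Function.uncurry F =ᶠ[nhds (t, q)] fun _ => 0 := by
        have ho : IsOpen {p : ℝ × (Fin (n + 1) → ℝ) | nsq p.2 < 1} :=
          isOpen_lt (contDiff_nsq.continuous.comp continuous_snd) continuous_const
        filter_upwards [ho.mem_nhds hq] with p hp
        simp [Function.uncurry, hF, hcut_eq_zero_of_lt p.2 hp]
      exact continuousAt_const.congr this.symm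
    · have hq0 : q ≠ 0 := by
        rintro rfl
        apply hq
        simp [nsq]
      have h1 := continuousAt_rad τ a A t q (hun t q hq0)
      have h2 : ContinuousAt (fun p : ℝ × (Fin (n + 1) → ℝ) => (hcut p.2 : ℂ)) (t, q) :=
        (Complex.continuous_ofReal.comp (continuous_hcut.comp continuous_snd)).continuousAt
      have h3 : (Function.uncurry F) = fun p : ℝ × (Fin (n + 1) → ℝ) =>
          (hcut p.2 : ℂ) * rad τ a (p.1 • A) p.2 := by
        ext p; exact hF p.1 p.2
      rw [h3]
      exact h2.mul h1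
  have hJ : Continuous (fun t => ∫ q, F t q) := by
    have := continuousOn_integral_of_compact_support (μ := volume) (f := F) (s := Set.univ)
      (isCompact_ballK n) hFc.continuousOn (fun t q _ hq => by
        simp [hF, hcut_eq_zero_of_gt q (not_le.mp hq)])
    rwa [← continuousOn_univ]
  have hJ0 : ∀ t : ℝ, t ≠ 0 → ∫ q, F t q = 0 := fun t ht => by
    simp only [hF]
    exact flux_zero τ hn hτ a (t • A) (hall t ht)
  have hJz : ∫ q, F 0 q = 0 := by
    have hd : Dense {t : ℝ | t ≠ 0} := dense_compl_singleton 0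
    have := hJ.ext_on hd continuous_const (fun t ht => hJ0 t ht)
    exact congrFun this 0
  -- evaluate at `t = 0`
  have hF0 : ∀ q, F 0 q = c * ((hcut q * g q : ℝ) : ℂ) := by
    intro q
    by_cases hq : q = 0
    · subst hq
      have : hcut (0 : Fin (n + 1) → ℝ) = 0 := hcut_eq_zero_of_lt _ (by simp [nsq])
      simp [hF, this]
    · simp only [hF, zero_smul]
      rw [hrad q hq]; push_cast; ring
  simp only [hF0] at hJz
  rw [integral_const_mul, integral_complex_ofReal] at hJz
  have hI : ∫ q, hcut q * g q = 0 := by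
    have := (mul_eq_zero.mp hJz).resolve_left hc
    exact_mod_cast this
  -- continuity of `hcut * g`
  have hcg : Continuous (fun q : Fin (n + 1) → ℝ => hcut q * g q) := by
    have h1 : Continuous (fun q => Function.uncurry F ((0:ℝ), q)) :=
      hFc.comp (continuous_const.prodMk continuous_id)
    have h2 : (fun q : Fin (n + 1) → ℝ => hcut q * g q) =
        fun q => (c⁻¹ * Function.uncurry F ((0:ℝ), q)).re := by
      ext q
      rw [Function.uncurry_apply_pair, hF0, inv_mul_cancel_left₀ hc, Complex.ofReal_re]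
    rw [h2]
    exact Complex.continuous_re.comp (continuous_const.mul h1)
  have hsupp : HasCompactSupport (fun q : Fin (n + 1) → ℝ => hcut q * g q) :=
    HasCompactSupport.intro (isCompact_ballK n) (fun q hq => by
      simp [hcut_eq_zero_of_gt q (not_le.mp hq)])
  have hnn : ∀ q : Fin (n + 1) → ℝ, 0 ≤ hcut q * g q := by
    intro q
    by_cases hq : q = 0
    · subst hq
      have : hcut (0 : Fin (n + 1) → ℝ) = 0 := hcut_eq_zero_of_lt _ (by simp [nsq])
      simp [this]
    · exact mul_nonneg (hcut_nonneg q) (hg q hq).le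
  -- some point has `hcut ≠ 0`
  obtain ⟨x, hx0, hx1, hx⟩ : ∃ x : ℝ, 0 < x ∧ x < 1 ∧ deriv Real.smoothTransition x ≠ 0 := by
    obtain ⟨x, hx, hx'⟩ := exists_deriv_eq_slope Real.smoothTransition (zero_lt_one)
      Real.smoothTransition.continuous.continuousOn
      (((Real.smoothTransition.contDiff (n := 1)).differentiable (by norm_num)).differentiableOn)
    refine ⟨x, hx.1, hx.2, ?_⟩
    rw [hx']; simp
  have hq1 : ∃ q : Fin (n + 1) → ℝ, hcut q * g q ≠ 0 := by
    refine ⟨fun j => if j = 0 then Real.sqrt (2 - x) else 0, ?_⟩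
    set q : Fin (n + 1) → ℝ := fun j => if j = 0 then Real.sqrt (2 - x) else 0 with hqdef
    have hnq : nsq q = 2 - x := by
      rw [nsq, Finset.sum_eq_single 0]
      · simp only [hqdef, if_true]; exact Real.sq_sqrt (by linarith)
      · intro b _ hb; simp [hqdef, hb]
      · simp
    have hq0 : q ≠ 0 := by
      intro h
      have : nsq q = 0 := by rw [h]; simp [nsq]
      linarith
    have h1 : hcut q ≠ 0 := by
      rw [hcut, hnq]
      have : (2 : ℝ) - (2 - x) = x := by ring
      rw [this]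
      exact mul_ne_zero two_ne_zero hx
    exact mul_ne_zero h1 (hg q hq0).ne'
  obtain ⟨q1, hq1⟩ := hq1
  have := hcg.integral_pos_of_hasCompactSupport_nonneg_nonzero hsupp hnn hq1 (μ := volume)
  exact this.ne' hI

end Pool.Agent.C1End
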