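import Pool.Agent.C1End.Cube

/-! Clifford generators for a finite set of labels and the reduction for labelled cubes. -/

namespace Pool.Agent.C1End

open Equiv Finset Matrix
open scoped ComplexOrder

variable (L : Type*) [Fintype L]

/-- index set of the spinor space of the label set -/
abbrev Sp (L : Type*) [Fintype L] := Unit × (Fin (Fintype.card L) → Bool)

/-- Clifford generators -/
noncomputable def gam (l : L) : Matrix (Sp L) (Sp L) ℂ := E Unit (Fintype.equivFin L l)

variable {L}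


theorem gam_sq (l : L) : gam L l * gam L l = 1 := E_sq _ _


theorem gam_anti (l l' : L) (h : l ≠ l') : gam L l * gam L l' = -(gam L l' * gam L l) :=
  E_anti _ _ _ (fun h' => h ((Fintype.equivFin L).injective h'))


theorem gam_herm (l : L) : (gam L l).IsHermitian := E_herm _ _

/-- the field `Y(x) = (γ_{r(x)} - γ_{r(-x)}) / √2` of a labelling -/
noncomputable def YL {n : ℕ} (r : (Fin n → Bool) → L) (x : Fin n → Bool) :
    Matrix (Sp L) (Sp L) ℂ :=
  (((Real.sqrt 2)⁻¹ : ℝ) : ℂ) • (gam L (r x) - gam L (r (anti x)))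


theorem YL_anti {n : ℕ} (r : (Fin n → Bool) → L) (x : Fin n → Bool) :
    YL r (anti x) = - YL r x := by
  rw [YL, YL, anti_anti, ← smul_neg, neg_sub]


theorem YL_herm {n : ℕ} (r : (Fin n → Bool) → L) (x : Fin n → Bool) :
    (YL r x).IsHermitian := by
  unfold Matrix.IsHermitian YL
  rw [Matrix.conjTranspose_smul, Matrix.conjTranspose_sub, (gam_herm _).eq, (gam_herm _).eq]
  simp


theorem YL_sq {n : ℕ} (r : (Fin n → Bool) → L) (x : Fin n → Bool) (h : r (anti x) ≠ r x) :
    YL r x * YL r x = 1 := by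
  rw [YL, smul_mul_smul_comm]
  have h1 : (gam L (r x) - gam L (r (anti x))) * (gam L (r x) - gam L (r (anti x))) =
      (2 : ℂ) • (1 : Matrix (Sp L) (Sp L) ℂ) := by
    have h2 := gam_anti (r x) (r (anti x)) h.symm
    calc (gam L (r x) - gam L (r (anti x))) * (gam L (r x) - gam L (r (anti x)))
        = gam L (r x) * gam L (r x) - gam L (r x) * gam L (r (anti x)) -
          gam L (r (anti x)) * gam L (r x) + gam L (r (anti x)) * gam L (r (anti x)) := by
          noncomm_ring
      _ = _ := by rw [gam_sq, gam_sq, h2, two_smul]; abel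
  rw [h1, smul_smul]
  have h3 : (((Real.sqrt 2)⁻¹ : ℝ) : ℂ) * (((Real.sqrt 2)⁻¹ : ℝ) : ℂ) * 2 = 1 := by
    have h4 : ((Real.sqrt 2)⁻¹ : ℝ) * (Real.sqrt 2)⁻¹ * 2 = 1 := by
      have h5 : Real.sqrt 2 * Real.sqrt 2 = 2 := Real.mul_self_sqrt (by norm_num)
      have h6 : Real.sqrt 2 ≠ 0 := by positivity
      field_simp
      nlinarith [h5]
    exact_mod_cast h4
  rw [h3, one_smul]

/-- The topological end for labelled cubes: `n` odd, `r` a labelling with `r(-x) ≠ r(x)`; then for
some unit vector `ξ` the compression of `Y` to the positive part of `D_ξ` is singular. -/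
theorem label_reduction {n : ℕ} (hn : Odd n) (r : (Fin n → Bool) → L)
    (hr : ∀ x, r (anti x) ≠ r x) :
    ∃ ξ : Fin n → ℝ, ∑ i, ξ i ^ 2 = 1 ∧ ∃ w : (Fin n → Bool) → Sp L → ℂ, w ≠ 0 ∧
      (∀ x, ∑ i, ((ξ i : ℂ) * sgn i x) • w (flip i x) = w x) ∧
      (∀ x, ∑ i, ((ξ i : ℂ) * sgn i x) • (YL r (flip i x)).mulVec (w (flip i x)) =
        -((YL r x).mulVec (w x))) :=
  world_reduction (Sp L) hn (YL r) (fun x => YL_sq r x (hr x)) (YL_herm r) (YL_anti r)

end Pool.Agent.C1End
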