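import Pool.Agent.C1End.Flux

/-! The value of the radial part at `t = 0`. -/

namespace Pool.Agent.C1End

open Equiv Finset

section anti

variable {R : Type*} [Ring R]

theorem prod_swap_adj {k : ℕ} (c : Fin (k + 1) → R) (hc : ∀ i j, i ≠ j → c i * c j = -(c j * c i))
    (i : Fin k) : (List.ofFn (c ∘ swap i.castSucc i.succ)).prod = -(List.ofFn c).prod := by
  induction k with
  | zero => exact i.elim0
  | succ k ih =>
    refine Fin.cases ?_ (fun i' => ?_) i
    · have h1 : c ∘ swap (Fin.castSucc 0) (Fin.succ 0) =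
          Fin.cons (c 1) (Fin.cons (c 0) (fun j : Fin k => c j.succ.succ)) := by
        ext j
        refine Fin.cases ?_ (fun j => ?_) j
        · simp
        · refine Fin.cases ?_ (fun j => ?_) j
          · simp
          · simp only [Function.comp, Fin.cons_succ]
            rw [swap_apply_of_ne_of_ne]
            · simp [Fin.ext_iff]
            · simp [Fin.ext_iff]
      have h2 : c = Fin.cons (c 0) (Fin.cons (c 1) (fun j : Fin k => c j.succ.succ)) := by
        ext j
        refine Fin.cases ?_ (fun j => ?_) j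
        · simp
        · refine Fin.cases ?_ (fun j => ?_) j <;> simp
      rw [h1]
      conv_rhs => rw [h2]
      simp only [List.ofFn_cons, List.prod_cons]
      rw [← mul_assoc, ← mul_assoc, hc 1 0 (by simp), neg_mul]
    · have h1 : c ∘ swap (i'.succ.castSucc) (i'.succ.succ) =
          Fin.cons (c 0) ((fun j => c j.succ) ∘ swap i'.castSucc i'.succ) := by
        ext j
        refine Fin.cases ?_ (fun j => ?_) j
        · simp only [Function.comp, Fin.cons_zero]
          rw [swap_apply_of_ne_of_ne]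
          · simp [Fin.ext_iff]
          · simp [Fin.ext_iff]
        · simp only [Function.comp, Fin.cons_succ]
          congr 1
          rw [← Fin.succ_castSucc]
          exact (Function.Injective.map_swap (Fin.succ_injective _) _ _ _).symm
      have h2 : c = Fin.cons (c 0) (fun j => c j.succ) := by
        ext j
        refine Fin.cases ?_ (fun j => ?_) j <;> simp
      rw [h1]
      conv_rhs => rw [h2]
      rw [List.ofFn_cons, List.ofFn_cons, List.prod_cons, List.prod_cons,
        ih (fun j => c j.succ) (fun a b hab => hc _ _ (fun h => hab (Fin.succ_injective _ h)))]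
      simp

theorem prod_perm_anti {k : ℕ} (σ : Perm (Fin k)) (c : Fin k → R)
    (hc : ∀ i j, i ≠ j → c i * c j = -(c j * c i)) :
    (List.ofFn (c ∘ σ)).prod = (Perm.sign σ : ℤ) • (List.ofFn c).prod := by
  cases k with
  | zero => rw [Subsingleton.elim σ 1]; simp
  | succ k =>
    have hmem : σ ∈ Submonoid.closure (Set.range fun i : Fin k => swap i.castSucc i.succ) := by
      rw [Perm.mclosure_swap_castSucc_succ]; trivial
    induction hmem using Submonoid.closure_induction generalizing c with
    | mem x hx =>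
      obtain ⟨i, rfl⟩ := hx
      simp only
      rw [prod_swap_adj c hc, Perm.sign_swap (by simp [Fin.ext_iff])]
      simp
    | one => simp
    | mul x y _ _ hx hy =>
      have h1 : c ∘ (x * y : Perm (Fin (k+1))) = (c ∘ x) ∘ y := rfl
      rw [h1, hy (c ∘ x) (fun i j hij => hc _ _ (fun h => hij (x.injective h))), hx c hc,
        Perm.sign_mul, smul_smul]
      simp [mul_comm]

/-- `∏ (x₀ yₖ)` for an odd number of factors -/
theorem prod_mul_left_odd (x0 : R) (h0 : x0 * x0 = 1) (m : ℕ) :
    ∀ (y : Fin (2 * m + 1) → R), (∀ i, x0 * y i = -(y i * x0)) →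
      (List.ofFn (fun k => x0 * y k)).prod = (-1) ^ m * (x0 * (List.ofFn y).prod) := by
  induction m with
  | zero => intro y hy; simp [List.ofFn_succ]
  | succ m ih =>
    intro y hy
    have e : 2 * (m + 1) + 1 = (2 * m + 1) + 1 + 1 := by ring
    have key : ∀ (N : ℕ) (hN : N = 2 * m + 1 + 1 + 1) (y : Fin N → R),
        (∀ i, x0 * y i = -(y i * x0)) →
        (List.ofFn (fun k => x0 * y k)).prod = (-1) ^ (m + 1) * (x0 * (List.ofFn y).prod) := by
      intro N hN
      subst hN
      intro y hy
      rw [List.ofFn_succ, List.ofFn_succ, List.prod_cons, List.prod_cons,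
        ih (fun i => y i.succ.succ) (fun i => hy _)]
      rw [List.ofFn_succ (f := y), List.ofFn_succ (f := fun i => y i.succ), List.prod_cons,
        List.prod_cons]
      set P := (List.ofFn fun i => y i.succ.succ).prod
      set a := y 0
      set b := y (Fin.succ 0)
      have hb : x0 * b = -(b * x0) := hy _
      have ha : x0 * a = -(a * x0) := hy _
      have h1 : x0 * a * (x0 * b * ((-1) ^ m * (x0 * P))) =
          (-1) ^ m * (x0 * a * x0 * b * x0 * P) := by
        have hcomm : Commute ((-1 : R) ^ m) (x0 * a * x0 * b) :=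
          (Commute.neg_one_left _).pow_left m
        calc x0 * a * (x0 * b * ((-1) ^ m * (x0 * P)))
            = (x0 * a * x0 * b * (-1) ^ m) * (x0 * P) := by noncomm_ring
          _ = ((-1) ^ m * (x0 * a * x0 * b)) * (x0 * P) := by rw [hcomm.eq]
          _ = _ := by noncomm_ring
      have h2 : x0 * a * x0 * b * x0 = -(x0 * (a * b)) := by
        calc x0 * a * x0 * b * x0 = -(a * x0) * x0 * b * x0 := by rw [ha]
          _ = -(a * (x0 * x0) * b * x0) := by noncomm_ring
          _ = -(a * (b * x0)) := by rw [h0]; noncomm_ring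
          _ = a * (x0 * b) := by rw [hb]; noncomm_ring
          _ = a * x0 * b := by noncomm_ring
          _ = -(x0 * a) * b := by rw [ha]; noncomm_ring
          _ = _ := by noncomm_ring
      rw [h1, h2, pow_succ]
      noncomm_ring
    exact key _ e y hy

end anti

section euclid

variable {n : ℕ} {R : Type*} [Ring R] [Algebra ℝ R]

/-- the euclidean space of the pencil parameters -/
abbrev V (n : ℕ) := EuclideanSpace ℝ (Fin (n + 1))

theorem alt_complex (f : V n [⋀^Fin (n + 1)]→ₗ[ℝ] ℂ)
    (e : Module.Basis (Fin (n + 1)) ℝ (V n)) (v : Fin (n + 1) → V n) :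
    f v = (e.det v : ℂ) * f e := by
  have h1 := (Complex.reLm.compAlternatingMap f).eq_smul_basis_det e
  have h2 := (Complex.imLm.compAlternatingMap f).eq_smul_basis_det e
  have h1' := congrArg (fun g => g v) h1
  have h2' := congrArg (fun g => g v) h2
  simp only [LinearMap.compAlternatingMap_apply, AlternatingMap.smul_apply, smul_eq_mul,
    Complex.reLm_coe, Complex.imLm_coe] at h1' h2'
  apply Complex.ext
  · rw [h1']; simp [mul_comm]
  · rw [h2']; simp [mul_comm]

theorem clifford_anti (X : V n →ₗ[ℝ] R) (hX : ∀ u, X u * X u = (‖u‖ ^ 2) • (1 : R))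
    (u v : V n) (h : inner ℝ u v = 0) : X u * X v = -(X v * X u) := by
  have h1 := hX (u + v)
  have h2 : ‖u + v‖ ^ 2 = ‖u‖ ^ 2 + ‖v‖ ^ 2 := by
    have := norm_add_sq_real u v
    rw [h] at this; linarith
  rw [map_add, h2, add_smul, ← hX u, ← hX v] at h1
  have h3 : X u * X v + X v * X u = 0 := by
    have : (X u + X v) * (X u + X v) - X u * X u - X v * X v = X u * X v + X v * X u := by
      noncomm_ring
    rw [← this, h1]; noncomm_ring
  exact eq_neg_of_add_eq_zero_left h3

/-- the multilinear map `T (∏ X uₖ)` -/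
noncomputable def Theta (T : R →ₗ[ℝ] ℂ) (X : V n →ₗ[ℝ] R) :
    MultilinearMap ℝ (fun _ : Fin (n + 1) => V n) ℂ :=
  T.compMultilinearMap ((MultilinearMap.mkPiAlgebraFin ℝ (n + 1) R).compLinearMap (fun _ => X))

theorem Theta_apply (T : R →ₗ[ℝ] ℂ) (X : V n →ₗ[ℝ] R) (u : Fin (n + 1) → V n) :
    Theta T X u = T (List.ofFn (fun k => X (u k))).prod := rfl

theorem Theta_perm (T : R →ₗ[ℝ] ℂ) (X : V n →ₗ[ℝ] R)
    (hX : ∀ u, X u * X u = (‖u‖ ^ 2) • (1 : R)) (b : OrthonormalBasis (Fin (n + 1)) ℝ (V n))
    (σ : Perm (Fin (n + 1))) :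
    Theta T X (fun i => b (σ i)) = ((Perm.sign σ : ℤ) : ℂ) * Theta T X b := by
  have h := prod_perm_anti σ (fun k => X (b k)) (fun i j hij =>
    clifford_anti X hX _ _ (by rw [b.inner_eq_ite]; simp [hij]))
  rw [Theta_apply, Theta_apply]
  have h2 : (List.ofFn fun k => X (b (σ k))) = List.ofFn ((fun k => X (b k)) ∘ σ) := rfl
  rw [h2, h, map_zsmul, zsmul_eq_mul]

theorem sign_mul_self' {k : ℕ} (σ : Perm (Fin k)) :
    ((Perm.sign σ : ℤ) : ℂ) * ((Perm.sign σ : ℤ) : ℂ) = 1 := by
  rcases Int.units_eq_one_or (Perm.sign σ) with h | h <;> simp [h]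

theorem units_smul_complex (u : ℤˣ) (z : ℂ) : u • z = ((u : ℤ) : ℂ) * z := by
  rcases Int.units_eq_one_or u with h | h <;> simp [h]

/-- value of `Theta` on two orthonormal bases -/
theorem Theta_det (T : R →ₗ[ℝ] ℂ) (X : V n →ₗ[ℝ] R)
    (hX : ∀ u, X u * X u = (‖u‖ ^ 2) • (1 : R)) (e b : OrthonormalBasis (Fin (n + 1)) ℝ (V n)) :
    Theta T X b = (e.toBasis.det b : ℂ) * Theta T X e := by
  have hval : ∀ b : OrthonormalBasis (Fin (n + 1)) ℝ (V n),
      MultilinearMap.alternatization (Theta T X) b =
        (Fintype.card (Perm (Fin (n + 1))) : ℂ) * Theta T X b := by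
    intro b
    rw [MultilinearMap.alternatization_apply]
    have : ∀ σ : Perm (Fin (n + 1)),
        Equiv.Perm.sign σ • (Theta T X).domDomCongr σ b = Theta T X b := by
      intro σ
      rw [MultilinearMap.domDomCongr_apply, Theta_perm T X hX b σ, units_smul_complex,
        ← mul_assoc, sign_mul_self', one_mul]
    rw [Finset.sum_congr rfl (fun σ _ => this σ), Finset.sum_const, Finset.card_univ,
      nsmul_eq_mul]
  have h1 := alt_complex (MultilinearMap.alternatization (Theta T X)) e.toBasis b
  rw [hval b] at h1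
  have h2 := hval e
  have h3 : (MultilinearMap.alternatization (Theta T X)) (e.toBasis) =
      (MultilinearMap.alternatization (Theta T X)) e := by
    congr 1
  rw [h3, h2] at h1
  have hc : (Fintype.card (Perm (Fin (n + 1))) : ℂ) ≠ 0 := by
    exact_mod_cast Fintype.card_ne_zero
  apply mul_left_cancel₀ hc
  rw [h1]; ring

/-- the slots of the radial form -/
noncomputable def slot (q : V n) (X : V n →ₗ[ℝ] R) : Fin (n + 1) → (V n →ₗ[ℝ] R) :=
  Fin.cons ((LinearMap.toSpanSingleton ℝ R 1).comp (innerₗ (V n) q))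
    (fun _ => (LinearMap.mulLeft ℝ (X q)).comp X)

/-- the radial form -/
noncomputable def Phi (T : R →ₗ[ℝ] ℂ) (q : V n) (X : V n →ₗ[ℝ] R) :
    MultilinearMap ℝ (fun _ : Fin (n + 1) => V n) ℂ :=
  T.compMultilinearMap ((MultilinearMap.mkPiAlgebraFin ℝ (n + 1) R).compLinearMap (slot q X))

theorem Phi_apply (T : R →ₗ[ℝ] ℂ) (q : V n) (X : V n →ₗ[ℝ] R) (u : Fin (n + 1) → V n) :
    Phi T q X u = (inner ℝ q (u 0) : ℂ) *
      T (List.ofFn (fun k : Fin n => X q * X (u k.succ))).prod := by
  have h : Phi T q X u = T (List.ofFn (fun k => slot q X k (u k))).prod := rfl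
  rw [h, List.ofFn_succ, List.prod_cons]
  have h0 : slot q X 0 (u 0) = (inner ℝ q (u 0) : ℝ) • (1 : R) := by
    simp [slot, LinearMap.toSpanSingleton]
  have h1 : ∀ k : Fin n, slot q X k.succ (u k.succ) = X q * X (u k.succ) := by
    intro k; simp [slot]
  rw [h0]
  simp only [h1]
  rw [smul_mul_assoc, one_mul, map_smul, Complex.real_smul]

/-- the radial identity -/
theorem radial (hn : Odd n) (T : R →ₗ[ℝ] ℂ) (X : V n →ₗ[ℝ] R)
    (hX : ∀ u, X u * X u = (‖u‖ ^ 2) • (1 : R)) (e : OrthonormalBasis (Fin (n + 1)) ℝ (V n)) :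
    ∃ N : ℕ, N ≠ 0 ∧ ∃ s : ℂ, s ≠ 0 ∧ ∀ q : V n, q ≠ 0 →
      MultilinearMap.alternatization (Phi T q X) e =
        (N : ℂ) * s * Theta T X e * ((‖q‖ ^ (n + 1) : ℝ) : ℂ) := by
  obtain ⟨m, rfl⟩ := hn
  refine ⟨(Finset.univ.filter (fun σ : Perm (Fin (2 * m + 1 + 1)) => σ 0 = 0)).card, ?_,
    (-1) ^ m, pow_ne_zero _ (by norm_num), ?_⟩
  · rw [Finset.card_ne_zero]
    exact ⟨1, by simp⟩
  intro q hq
  have hq' : ‖q‖ ≠ 0 := norm_ne_zero_iff.mpr hq
  -- orthonormal basis with first vector `q / |q|`
  obtain ⟨b, hb⟩ : ∃ b : OrthonormalBasis (Fin (2 * m + 1 + 1)) ℝ (V (2 * m + 1)),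
      b 0 = (‖q‖)⁻¹ • q := by
    have hv : Orthonormal ℝ (Set.domRestrict ({0} : Set (Fin (2 * m + 1 + 1)))
        (fun _ => (‖q‖)⁻¹ • q)) := by
      constructor
      · intro i
        simp [Set.domRestrict, norm_smul, hq']
      · intro i j hij
        exact absurd (Subsingleton.elim i j) hij
    obtain ⟨b, hb⟩ := hv.exists_orthonormalBasis_extension_of_card_eq (by simp)
    exact ⟨b, hb 0 (by simp)⟩
  have hqb : q = ‖q‖ • b 0 := by
    rw [hb, smul_smul, mul_inv_cancel₀ hq', one_smul]
  have hb0 : X (b 0) * X (b 0) = 1 := by rw [hX]; simp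
  -- value on `b`
  have hval : MultilinearMap.alternatization (Phi T q X) b =
      ((Finset.univ.filter (fun σ : Perm (Fin (2 * m + 1 + 1)) => σ 0 = 0)).card : ℂ) *
        ((-1) ^ m * Theta T X b * ((‖q‖ ^ (2 * m + 1 + 1) : ℝ) : ℂ)) := by
    rw [MultilinearMap.alternatization_apply]
    have hterm : ∀ σ : Perm (Fin (2 * m + 1 + 1)),
        Equiv.Perm.sign σ • (Phi T q X).domDomCongr σ b =
        if σ 0 = 0 then (-1) ^ m * Theta T X b * ((‖q‖ ^ (2 * m + 1 + 1) : ℝ) : ℂ) else 0 := by
      intro σ
      rw [MultilinearMap.domDomCongr_apply, Phi_apply, units_smul_complex]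
      have hin : inner ℝ q (b (σ 0)) = if σ 0 = 0 then ‖q‖ else 0 := by
        conv_lhs => rw [hqb]
        rw [real_inner_smul_left, b.inner_eq_ite]
        by_cases h : σ 0 = 0
        · simp [h]
        · simp [h, Ne.symm h]
      rw [hin]
      by_cases h : σ 0 = 0
      · simp only [h, if_true]
        have h1 : (List.ofFn (fun k : Fin (2 * m + 1) => X q * X (b (σ k.succ)))).prod =
            (‖q‖ ^ (2 * m + 1)) •
              (List.ofFn (fun k : Fin (2 * m + 1) => X (b 0) * X (b (σ k.succ)))).prod := by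
          have : ∀ k : Fin (2 * m + 1), X q * X (b (σ k.succ)) =
              ‖q‖ • (X (b 0) * X (b (σ k.succ))) := by
            intro k
            conv_lhs => rw [hqb]
            rw [map_smul, smul_mul_assoc]
          simp only [this]
          have hm := (MultilinearMap.mkPiAlgebraFin ℝ (2 * m + 1) R).map_smul_univ
            (fun _ => ‖q‖) (fun k : Fin (2 * m + 1) => X (b 0) * X (b (σ k.succ)))
          simp only [Finset.prod_const, Finset.card_univ, Fintype.card_fin] at hm
          exact hm
        have h2 := prod_mul_left_odd (X (b 0)) hb0 m (fun k => X (b (σ k.succ))) (fun i =>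
          clifford_anti X hX _ _ (by
            rw [b.inner_eq_ite]
            have : (0 : Fin (2 * m + 1 + 1)) ≠ σ i.succ := by
              intro h'
              have := σ.injective (h.trans h')
              exact (Fin.succ_ne_zero i) this.symm
            simp [this]))
        have h3 : X (b 0) * (List.ofFn (fun k : Fin (2 * m + 1) => X (b (σ k.succ)))).prod =
            (List.ofFn (fun k : Fin (2 * m + 1 + 1) => X (b (σ k)))).prod := by
          conv_rhs => rw [List.ofFn_succ, List.prod_cons, h]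
        have h4 : T (List.ofFn (fun k : Fin (2 * m + 1 + 1) => X (b (σ k)))).prod =
            ((Perm.sign σ : ℤ) : ℂ) * Theta T X b := Theta_perm T X hX b σ
        rw [h1, h2, h3, map_smul, Complex.real_smul]
        have h5 : T ((-1) ^ m * (List.ofFn (fun k : Fin (2 * m + 1 + 1) => X (b (σ k)))).prod) =
            (-1) ^ m * T (List.ofFn (fun k : Fin (2 * m + 1 + 1) => X (b (σ k)))).prod := by
          rcases Nat.even_or_odd m with hm | hm
          · simp [hm.neg_one_pow]
          · simp [hm.neg_one_pow]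
        rw [h5, h4]
        have h6 := sign_mul_self' σ
        push_cast
        linear_combination ((‖q‖ : ℂ) ^ (2 * m + 1 + 1) * (-1) ^ m * Theta T X b) * h6
      · simp [h]
    rw [Finset.sum_congr rfl (fun σ _ => hterm σ), ← Finset.sum_filter, Finset.sum_const,
      nsmul_eq_mul]
  have h1 := alt_complex (MultilinearMap.alternatization (Phi T q X)) e.toBasis b
  have h3 : (MultilinearMap.alternatization (Phi T q X)) (e.toBasis) =
      (MultilinearMap.alternatization (Phi T q X)) e := by
    congr 1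
  rw [h3, hval, Theta_det T X hX e b] at h1
  have hd : ((e.toBasis.det b : ℝ) : ℂ) * ((e.toBasis.det b : ℝ) : ℂ) = 1 := by
    rcases e.det_to_matrix_orthonormalBasis_real b with h | h <;> rw [h] <;> simp
  linear_combination (-(((e.toBasis.det b : ℝ) : ℂ))) * h1 +
    ((((Finset.univ.filter (fun σ : Perm (Fin (2 * m + 1 + 1)) => σ 0 = 0)).card : ℂ) *
        ((-1) ^ m * Theta T X e * ((‖q‖ ^ (2 * m + 1 + 1) : ℝ) : ℂ))) -
        MultilinearMap.alternatization (Phi T q X) e) * hd

end euclid

end Pool.Agent.C1End
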