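import Pool.Agent.C1End.Radial

/-! Theorem `E_n`: `n` odd, `e_1, …, e_n` anticommuting involutions with scalar product; then for
every `A` some `A + i s + Σ ξ_j e_j` is singular. -/

namespace Pool.Agent.C1End

open Equiv Finset

section ring

variable {n : ℕ} {R : Type*} [Ring R] [Algebra ℂ R]

/-- coefficients of the pencil -/
noncomputable def coef (e : Fin n → R) : Fin (n + 1) → R := Fin.cons (Complex.I • (1 : R)) e

/-- coefficients of the conjugate pencil -/
noncomputable def coef' (e : Fin n → R) : Fin (n + 1) → R := Fin.cons (-(Complex.I • (1 : R))) e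

/-- the doubled pencil -/
noncomputable def XX (e : Fin n → R) : V n →ₗ[ℝ] Matrix (Fin 2) (Fin 2) R where
  toFun q := !![0, ∑ j, q j • coef' e j; ∑ j, q j • coef e j, 0]
  map_add' x y := by
    ext i j
    fin_cases i <;> fin_cases j <;> simp [add_smul, Finset.sum_add_distrib]
  map_smul' c x := by
    ext i j
    fin_cases i <;> fin_cases j <;> simp [Finset.smul_sum, mul_smul]

theorem XX_apply (e : Fin n → R) (q : V n) : XX e q =
    !![0, ∑ j, q j • coef' e j; ∑ j, q j • coef e j, 0] := rfl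

theorem sq_sum (e : Fin n → R) (he : ∀ i, e i * e i = 1)
    (ha : ∀ i j, i ≠ j → e i * e j = -(e j * e i)) (x : Fin n → ℝ) :
    (∑ j, x j • e j) * (∑ j, x j • e j) = (∑ j, x j ^ 2) • (1 : R) := by
  have h1 : (∑ j, x j • e j) * (∑ j, x j • e j) = ∑ i, ∑ j, (x i * x j) • (e i * e j) := by
    rw [Finset.sum_mul_sum]
    refine Finset.sum_congr rfl (fun i _ => Finset.sum_congr rfl (fun j _ => ?_))
    rw [smul_mul_smul_comm]
  have h2 : (∑ j, x j • e j) * (∑ j, x j • e j) = ∑ i, ∑ j, (x i * x j) • (e j * e i) := by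
    rw [h1, Finset.sum_comm]
    refine Finset.sum_congr rfl (fun i _ => Finset.sum_congr rfl (fun j _ => ?_))
    rw [mul_comm (x i)]
  have h3 : (2 : ℝ) • ((∑ j, x j • e j) * (∑ j, x j • e j)) =
      (2 : ℝ) • ((∑ j, x j ^ 2) • (1 : R)) := by
    rw [two_smul]
    nth_rw 1 [h1]
    rw [h2, ← Finset.sum_add_distrib, Finset.sum_smul, Finset.smul_sum]
    refine Finset.sum_congr rfl (fun i _ => ?_)
    rw [← Finset.sum_add_distrib, Finset.sum_eq_single i]
    · rw [he, two_smul, pow_two]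
    · intro j _ hj
      rw [← smul_add, ha i j hj.symm]; simp
    · simp
  exact smul_right_injective R (two_ne_zero' ℝ) h3

theorem coef_mul (e : Fin n → R) (he : ∀ i, e i * e i = 1)
    (ha : ∀ i j, i ≠ j → e i * e j = -(e j * e i)) (q : V n) :
    (∑ j, q j • coef' e j) * (∑ j, q j • coef e j) = (‖q‖ ^ 2) • (1 : R) ∧
    (∑ j, q j • coef e j) * (∑ j, q j • coef' e j) = (‖q‖ ^ 2) • (1 : R) := by
  have h := sq_sum e he ha (fun j => q j.succ)
  set v := ∑ j : Fin n, q j.succ • e j with hv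
  have h1 : (∑ j, q j • coef' e j) = -(q 0 • (Complex.I • (1 : R))) + v := by
    rw [Fin.sum_univ_succ]; simp [coef', hv]
  have h2 : (∑ j, q j • coef e j) = (q 0 • (Complex.I • (1 : R))) + v := by
    rw [Fin.sum_univ_succ]; simp [coef, hv]
  have h3 : ‖q‖ ^ 2 = (q 0) ^ 2 + ∑ j : Fin n, (q j.succ) ^ 2 := by
    rw [EuclideanSpace.norm_sq_eq, Fin.sum_univ_succ]
    simp
  have h5 : (q 0 • (Complex.I • (1 : R))) * (q 0 • (Complex.I • (1 : R))) =
      -((q 0 ^ 2) • (1 : R)) := by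
    rw [smul_mul_smul_comm, smul_mul_smul_comm, Complex.I_mul_I, mul_one]
    simp [pow_two]
  have h6 : (q 0 • (Complex.I • (1 : R))) * v = v * (q 0 • (Complex.I • (1 : R))) := by
    simp
  rw [h1, h2, h3, add_smul, ← h]
  set z := (q 0 • (Complex.I • (1 : R)))
  constructor
  · calc (-z + v) * (z + v) = -(z * z) - z * v + v * z + v * v := by noncomm_ring
      _ = _ := by rw [h5, h6]; simp
  · calc (z + v) * (-z + v) = -(z * z) + z * v - v * z + v * v := by noncomm_ring
      _ = _ := by rw [h5, h6]; simp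

theorem XX_sq (e : Fin n → R) (he : ∀ i, e i * e i = 1)
    (ha : ∀ i j, i ≠ j → e i * e j = -(e j * e i)) (q : V n) :
    XX e q * XX e q = (‖q‖ ^ 2) • (1 : Matrix (Fin 2) (Fin 2) R) := by
  obtain ⟨h1, h2⟩ := coef_mul e he ha q
  rw [XX_apply]
  ext i j
  fin_cases i <;> fin_cases j
  · simp [Matrix.mul_apply, h1]
  · simp [Matrix.mul_apply]
  · simp [Matrix.mul_apply]
  · simp [Matrix.mul_apply, h2]

omit [Algebra ℂ R] in
theorem prod_diag {k : ℕ} (x y : Fin k → R) :
    (List.ofFn (fun j => (!![x j, 0; 0, y j] : Matrix (Fin 2) (Fin 2) R))).prod =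
      !![(List.ofFn x).prod, 0; 0, (List.ofFn y).prod] := by
  induction k with
  | zero => ext i j; fin_cases i <;> fin_cases j <;> simp
  | succ k ih =>
    rw [List.ofFn_succ, List.prod_cons, ih]
    rw [List.ofFn_succ (f := x), List.ofFn_succ (f := y), List.prod_cons, List.prod_cons]
    ext i j; fin_cases i <;> fin_cases j <;> simp [Matrix.mul_apply]

omit [Algebra ℂ R] in
theorem prod_offdiag {k : ℕ} (hk : Odd k) (x : Fin k → R) :
    (List.ofFn (fun j => (!![0, x j; x j, 0] : Matrix (Fin 2) (Fin 2) R))).prod =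
      !![0, (List.ofFn x).prod; (List.ofFn x).prod, 0] := by
  have key : ∀ (k : ℕ) (x : Fin k → R),
      (List.ofFn (fun j => (!![0, x j; x j, 0] : Matrix (Fin 2) (Fin 2) R))).prod =
      if Odd k then !![0, (List.ofFn x).prod; (List.ofFn x).prod, 0] else
        !![(List.ofFn x).prod, 0; 0, (List.ofFn x).prod] := by
    intro k
    induction k with
    | zero => intro x; ext i j; fin_cases i <;> fin_cases j <;> simp
    | succ k ih =>
      intro x
      rw [List.ofFn_succ, List.prod_cons, ih]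
      rw [List.ofFn_succ (f := x), List.prod_cons]
      by_cases h : Odd k
      · have h' : ¬ Odd (k + 1) := by
          rw [Nat.not_odd_iff_even]; exact h.add_one
        simp only [h, h', if_true, if_false]
        ext i j; fin_cases i <;> fin_cases j <;> simp [Matrix.mul_apply]
      · have h' : Odd (k + 1) := (Nat.not_odd_iff_even.mp h).add_one
        simp only [h, h', if_true, if_false]
        ext i j; fin_cases i <;> fin_cases j <;> simp [Matrix.mul_apply]
  rw [key]; simp [hk]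

theorem XX_basis (e : Fin n → R) (j : Fin (n + 1)) :
    XX e (EuclideanSpace.basisFun (Fin (n + 1)) ℝ j) = !![0, coef' e j; coef e j, 0] := by
  rw [XX_apply]
  have h : ∀ c : Fin (n + 1) → R,
      ∑ i, (EuclideanSpace.basisFun (Fin (n + 1)) ℝ j) i • c i = c j := by
    intro c
    rw [Finset.sum_eq_single j]
    · simp
    · intro b _ hb; simp [hb]
    · simp
  rw [h, h]

theorem Theta_XX (hn : Odd n) (e : Fin n → R) (κ : ℂ) (hκ : (List.ofFn e).prod = κ • (1 : R)) :
    (List.ofFn (fun k => XX e (EuclideanSpace.basisFun (Fin (n + 1)) ℝ k))).prod =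
      !![-((Complex.I * κ) • (1 : R)), 0; 0, (Complex.I * κ) • (1 : R)] := by
  simp only [XX_basis]
  rw [List.ofFn_succ, List.prod_cons]
  simp only [coef, coef', Fin.cons_succ, Fin.cons_zero]
  rw [prod_offdiag hn, hκ]
  ext i j; fin_cases i <;> fin_cases j <;> simp [Matrix.mul_apply, smul_smul, mul_comm]

omit [Algebra ℂ R] in
theorem isUnit_list_prod : ∀ (l : List R), (∀ x ∈ l, IsUnit x) → IsUnit l.prod
  | [], _ => by simp
  | a :: l, h => by
    rw [List.prod_cons]
    exact (h a (by simp)).mul (isUnit_list_prod l (fun x hx => h x (by simp [hx])))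

end ring

section main

variable {n : ℕ} {R : Type*} [NormedRing R] [NormedAlgebra ℂ R] [CompleteSpace R]

/-- the trace of the upper left block -/
noncomputable def TT (τ : R →L[ℂ] ℂ) : Matrix (Fin 2) (Fin 2) R →ₗ[ℝ] ℂ where
  toFun M := τ (M 0 0)
  map_add' x y := by simp
  map_smul' c x := by
    simp only [Matrix.smul_apply, RingHom.id_apply]
    exact (τ.restrictScalars ℝ).map_smul c (x 0 0)

omit [CompleteSpace R] in
theorem res_coef (e : Fin n → R) (he : ∀ i, e i * e i = 1)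
    (ha : ∀ i j, i ≠ j → e i * e j = -(e j * e i)) (q : V n) (hq : q ≠ 0) :
    IsUnit (pen (coef e) q) ∧
    res (coef e) 0 q = (‖q‖ ^ 2)⁻¹ • (∑ j, q j • coef' e j) := by
  obtain ⟨h1, h2⟩ := coef_mul e he ha q
  have hq' : ‖q‖ ^ 2 ≠ 0 := pow_ne_zero _ (norm_ne_zero_iff.mpr hq)
  have hu1 : (∑ j, q j • coef e j) * ((‖q‖ ^ 2)⁻¹ • (∑ j, q j • coef' e j)) = 1 := by
    rw [mul_smul_comm, h2, smul_smul, inv_mul_cancel₀ hq', one_smul]
  have hu2 : ((‖q‖ ^ 2)⁻¹ • (∑ j, q j • coef' e j)) * (∑ j, q j • coef e j) = 1 := by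
    rw [smul_mul_assoc, h1, smul_smul, inv_mul_cancel₀ hq', one_smul]
  have hpen : pen (coef e) q = ∑ j, q j • coef e j := pen_apply _ _
  constructor
  · rw [hpen]; exact ⟨⟨_, _, hu1, hu2⟩, rfl⟩
  · rw [res, zero_add, hpen]
    exact Ring.inverse_unit (⟨_, _, hu1, hu2⟩ : Rˣ)

omit [CompleteSpace R] in
theorem rad_eq (τ : R →L[ℂ] ℂ) (e : Fin n → R) (q : Fin (n + 1) → ℝ) (C : ℂ)
    (hr : res (coef e) 0 q = (‖(WithLp.toLp 2 q : V n)‖ ^ 2)⁻¹ •
      (∑ j, (WithLp.toLp 2 q : V n) j • coef' e j))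
    (h1 : MultilinearMap.alternatization (Phi (TT τ) (WithLp.toLp 2 q) (XX e))
      (EuclideanSpace.basisFun (Fin (n + 1)) ℝ) =
        C * ((‖(WithLp.toLp 2 q : V n)‖ ^ (n + 1) : ℝ) : ℂ)) :
    rad (τ.restrictScalars ℝ) (coef e) 0 q =
      C * ((‖(WithLp.toLp 2 q : V n)‖ ^ (n + 1) *
        ((‖(WithLp.toLp 2 q : V n)‖ ^ 2)⁻¹) ^ n : ℝ) : ℂ) := by
  set r := (‖(WithLp.toLp 2 q : V n)‖ ^ 2)⁻¹
  have h2 : rad (τ.restrictScalars ℝ) (coef e) 0 q = (r ^ n : ℝ) *
      MultilinearMap.alternatization (Phi (TT τ) (WithLp.toLp 2 q) (XX e))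
      (EuclideanSpace.basisFun (Fin (n + 1)) ℝ) := by
    rw [MultilinearMap.alternatization_apply, Finset.mul_sum]
    simp only [rad, XF, Finset.mul_sum]
    rw [Finset.sum_comm]
    refine Finset.sum_congr rfl (fun σ _ => ?_)
    rw [Finset.sum_eq_single (σ 0)]
    · rw [MultilinearMap.domDomCongr_apply, Phi_apply, units_smul_complex]
      simp only [if_true]
      have hin : inner ℝ (WithLp.toLp 2 q : V n)
          (EuclideanSpace.basisFun (Fin (n + 1)) ℝ (σ 0)) = q (σ 0) := by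
        rw [real_inner_comm, EuclideanSpace.basisFun_inner]
      rw [hin]
      have hprod : ∀ k : Fin n, XX e (WithLp.toLp 2 q) *
          XX e (EuclideanSpace.basisFun (Fin (n + 1)) ℝ (σ k.succ)) =
          !![(∑ j, (WithLp.toLp 2 q : V n) j • coef' e j) * coef e (σ k.succ), 0; 0,
            (∑ j, (WithLp.toLp 2 q : V n) j • coef e j) * coef' e (σ k.succ)] := by
        intro k
        rw [XX_basis, XX_apply]
        ext i j; fin_cases i <;> fin_cases j <;> simp [Matrix.mul_apply]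
      simp only [hprod]
      rw [prod_diag]
      have hT : ∀ M : Matrix (Fin 2) (Fin 2) R, TT τ M = τ (M 0 0) := fun _ => rfl
      rw [hT]
      simp only [Matrix.of_apply, Matrix.cons_val_zero, Matrix.cons_val', Matrix.cons_val_fin_one]
      rw [hr]
      have hm := (MultilinearMap.mkPiAlgebraFin ℝ n R).map_smul_univ
        (fun _ => r) (fun k : Fin n => (∑ j, (WithLp.toLp 2 q : V n) j • coef' e j) *
          coef e (σ k.succ))
      simp only [Finset.prod_const, Finset.card_univ, Fintype.card_fin,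
        MultilinearMap.mkPiAlgebraFin_apply] at hm
      simp only [smul_mul_assoc]
      rw [hm, map_smul]
      simp only [ContinuousLinearMap.coe_restrictScalars', Complex.real_smul]
      ring
    · intro b _ hb
      simp [Ne.symm hb]
    · simp
  rw [h2, h1]
  push_cast
  ring

theorem theorem_E (hn : Odd n) (τ : R →L[ℂ] ℂ) (hτ : ∀ x y, τ (x * y) = τ (y * x))
    (hτ1 : τ 1 ≠ 0) (e : Fin n → R) (he : ∀ i, e i * e i = 1)
    (ha : ∀ i j, i ≠ j → e i * e j = -(e j * e i)) (κ : ℂ)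
    (hκ : (List.ofFn e).prod = κ • (1 : R)) (A : R) :
    ∃ (s : ℝ) (ξ : Fin n → ℝ), ¬ IsUnit (A + (s • (Complex.I • (1 : R)) + ∑ j, ξ j • e j)) := by
  have hκ0 : κ ≠ 0 := by
    intro h0
    rw [h0, zero_smul] at hκ
    have : IsUnit ((List.ofFn e).prod) := by
      apply isUnit_list_prod
      intro x hx
      rw [List.mem_ofFn'] at hx
      obtain ⟨i, rfl⟩ := hx
      exact ⟨⟨e i, e i, he i, he i⟩, rfl⟩
    rw [hκ] at this
    have h1 : (1 : R) = 0 := by
      have := isUnit_zero_iff.mp this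
      exact this.symm
    apply hτ1; rw [h1, map_zero]
  obtain ⟨N, hN, s, hs, hrad⟩ := radial hn (TT τ) (XX e) (XX_sq e he ha)
    (EuclideanSpace.basisFun (Fin (n + 1)) ℝ)
  set Θ := Theta (TT τ) (XX e) (EuclideanSpace.basisFun (Fin (n + 1)) ℝ) with hΘ
  have hΘ0 : Θ ≠ 0 := by
    rw [hΘ, Theta_apply, Theta_XX hn e κ hκ]
    simp only [TT, LinearMap.coe_mk, AddHom.coe_mk, Matrix.of_apply, Matrix.cons_val_zero,
      map_neg, map_smul, smul_eq_mul]
    simp [hκ0, hτ1]
  have hmain := no_regular_pencil (τ := τ.restrictScalars ℝ) hn (fun x y => hτ x y) (coef e) A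
    (fun q hq => (res_coef e he ha (WithLp.toLp 2 q) (by simpa using hq)).1)
    ((N : ℂ) * s * Θ) (by
      refine mul_ne_zero (mul_ne_zero ?_ hs) hΘ0
      exact_mod_cast hN)
    (fun q => ‖(WithLp.toLp 2 q : V n)‖ ^ (n + 1) * ((‖(WithLp.toLp 2 q : V n)‖ ^ 2)⁻¹) ^ n)
    (fun q hq => by
      have : 0 < ‖(WithLp.toLp 2 q : V n)‖ := norm_pos_iff.mpr (by simpa using hq)
      positivity)
    (fun q hq => by
      have hq0 : (WithLp.toLp 2 q : V n) ≠ 0 := by simpa using hq
      have h1 := hrad (WithLp.toLp 2 q) hq0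
      have hr := (res_coef e he ha (WithLp.toLp 2 q) hq0).2
      exact rad_eq τ e q ((N : ℂ) * s * Θ) hr h1)
  obtain ⟨q, hq⟩ := hmain
  refine ⟨q 0, fun j => q j.succ, ?_⟩
  rw [pen_apply, Fin.sum_univ_succ] at hq
  simpa [coef] using hq

end main

section matrix

attribute [local instance] Matrix.linftyOpNormedRing Matrix.linftyOpNormedAlgebra

/-- Theorem `E_n` for matrices. -/
theorem theorem_E_matrix {n : ℕ} (hn : Odd n) {m : Type*} [Fintype m] [DecidableEq m] [Nonempty m]
    (e : Fin n → Matrix m m ℂ) (he : ∀ i, e i * e i = 1)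
    (ha : ∀ i j, i ≠ j → e i * e j = -(e j * e i)) (κ : ℂ)
    (hκ : (List.ofFn e).prod = κ • (1 : Matrix m m ℂ)) (A : Matrix m m ℂ) :
    ∃ (s : ℝ) (ξ : Fin n → ℝ) (w : m → ℂ), w ≠ 0 ∧
      (A + (((s : ℂ) * Complex.I) • (1 : Matrix m m ℂ) + ∑ j, (ξ j : ℂ) • e j)).mulVec w = 0 := by
  have : CompleteSpace (Matrix m m ℂ) := FiniteDimensional.complete ℂ _
  obtain ⟨s, ξ, h⟩ := theorem_E (R := Matrix m m ℂ) hn
    (LinearMap.toContinuousLinearMap (Matrix.traceLinearMap m ℂ ℂ))
    (fun x y => by simp [Matrix.trace_mul_comm x y]) (by simp) e he ha κ hκ A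
  refine ⟨s, ξ, ?_⟩
  rw [Matrix.isUnit_iff_isUnit_det, isUnit_iff_ne_zero, not_not] at h
  obtain ⟨w, hw, h2⟩ := Matrix.exists_mulVec_eq_zero_iff.mpr h
  refine ⟨w, hw, ?_⟩
  rw [← h2]
  congr 2
  congr 1
  · rw [mul_smul]; rfl

end matrix

end Pool.Agent.C1End
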