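import Pool.Agent.C1End.TheoremE

/-! Reduction: for a self-adjoint involution `Y` anticommuting with the antipode `T`, some
compression `P₊(ξ) Y P₊(ξ)` is singular. -/

namespace Pool.Agent.C1End

open Equiv Finset Matrix
open scoped ComplexOrder

section abstr

theorem prod_mul_left_comm {R : Type*} [Ring R] (T : R) {k : ℕ} (e : Fin k → R)
    (hT : ∀ i, T * e i = e i * T) :
    (List.ofFn (fun i => T * e i)).prod = T ^ k * (List.ofFn e).prod := by
  induction k with
  | zero => simp
  | succ k ih =>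
    rw [List.ofFn_succ, List.prod_cons, ih (fun i => e i.succ) (fun i => hT _)]
    rw [List.ofFn_succ (f := e), List.prod_cons, pow_succ]
    have hc : Commute (e 0) (T ^ k) := (Commute.symm (hT 0)).pow_right k
    calc T * e 0 * (T ^ k * (List.ofFn fun i => e i.succ).prod)
        = T * (e 0 * T ^ k) * (List.ofFn fun i => e i.succ).prod := by noncomm_ring
      _ = T * (T ^ k * e 0) * (List.ofFn fun i => e i.succ).prod := by rw [hc.eq]
      _ = (T * T ^ k) * (e 0 * (List.ofFn fun i => e i.succ).prod) := by noncomm_ring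
      _ = _ := by rw [(Commute.self_pow T k).eq]

variable {n : ℕ} {m : Type*} [Fintype m] [DecidableEq m] [Nonempty m]

theorem reduction (hn : Odd n) (e : Fin n → Matrix m m ℂ) (he : ∀ i, e i * e i = 1)
    (ha : ∀ i j, i ≠ j → e i * e j = -(e j * e i)) (heh : ∀ i, (e i).IsHermitian)
    (T : Matrix m m ℂ) (hT : T * T = 1) (hTh : T.IsHermitian) (hTe : ∀ i, T * e i = e i * T)
    (c : ℂ) (hTc : (List.ofFn e).prod = c • T)
    (P : Matrix m m ℂ) (hP2 : P * P = 1) (hPe : ∀ i, P * e i = -(e i * P))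
    (hPT : P * T = -(T * P))
    (Y : Matrix m m ℂ) (hPY : P * Y = Y * P) (hY2 : Y * Y = 1) (hYh : Y.IsHermitian)
    (hTY : T * Y = -(Y * T)) :
    ∃ ξ : Fin n → ℝ, ∑ i, ξ i ^ 2 = 1 ∧ ∃ w : m → ℂ, w ≠ 0 ∧
      (∑ i, (ξ i : ℂ) • e i).mulVec w = w ∧
      (∑ i, (ξ i : ℂ) • e i).mulVec (Y.mulVec w) = -(Y.mulVec w) := by
  -- the pencil
  have hu2 : ∀ i, T * e i * (T * e i) = 1 := by
    intro i
    calc T * e i * (T * e i) = T * (e i * T) * e i := by noncomm_ring
      _ = T * (T * e i) * e i := by rw [hTe]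
      _ = (T * T) * (e i * e i) := by noncomm_ring
      _ = 1 := by rw [hT, he]; simp
  have huu : ∀ i j, T * e i * (T * e j) = e i * e j := by
    intro i j
    calc T * e i * (T * e j) = T * (e i * T) * e j := by noncomm_ring
      _ = T * (T * e i) * e j := by rw [hTe]
      _ = (T * T) * (e i * e j) := by noncomm_ring
      _ = e i * e j := by rw [hT]; simp
  have hTn : T ^ n = T := by
    obtain ⟨k, rfl⟩ := hn
    rw [pow_succ, pow_mul, pow_two, hT]; simp
  obtain ⟨s, ξ, v0, hv0, hk0⟩ := theorem_E_matrix hn (fun i => T * e i) hu2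
    (fun i j hij => by rw [huu, huu, ha i j hij]) c
    (by rw [prod_mul_left_comm T e hTe, hTn, hTc, mul_smul_comm, hT]) Y
  set D := ∑ i, (ξ i : ℂ) • e i with hD
  have hU : ∑ j, (ξ j : ℂ) • (T * e j) = T * D := by
    rw [hD, Finset.mul_sum]
    exact Finset.sum_congr rfl (fun i _ => by rw [mul_smul_comm])
  rw [hU] at hk0
  have hTD : T * D = D * T := by
    rw [hD, Finset.mul_sum, Finset.sum_mul]
    exact Finset.sum_congr rfl (fun i _ => by rw [mul_smul_comm, smul_mul_assoc, hTe])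
  have hPD : P * D = -(D * P) := by
    rw [hD, Finset.mul_sum, Finset.sum_mul, ← Finset.sum_neg_distrib]
    exact Finset.sum_congr rfl (fun i _ => by rw [mul_smul_comm, smul_mul_assoc, hPe, smul_neg])
  have hPU : P * (T * D) = (T * D) * P := by
    calc P * (T * D) = (P * T) * D := by noncomm_ring
      _ = -(T * (P * D)) := by rw [hPT]; noncomm_ring
      _ = (T * D) * P := by rw [hPD]; noncomm_ring
  have hD2 : D * D = ((∑ i, ξ i ^ 2 : ℝ) : ℂ) • (1 : Matrix m m ℂ) := by
    have h := sq_sum e he ha ξ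
    have h1 : ∑ j, ξ j • e j = D := by
      rw [hD]; exact Finset.sum_congr rfl (fun i _ => rfl)
    rw [h1] at h
    rw [h]; rfl
  have hDh : D.IsHermitian := by
    rw [hD]
    unfold Matrix.IsHermitian
    rw [Matrix.conjTranspose_sum]
    exact Finset.sum_congr rfl (fun i _ => by
      rw [Matrix.conjTranspose_smul, (heh i).eq]; simp)
  -- a kernel vector of pure parity
  set K := Y + (((s : ℂ) * Complex.I) • (1 : Matrix m m ℂ) + T * D) with hK
  have hPK : P * K = K * P := by
    rw [hK, mul_add, mul_add, add_mul, add_mul, hPY, hPU, mul_smul_comm, smul_mul_assoc]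
    simp
  obtain ⟨v, hv, hk, σ, hσ, hPv⟩ : ∃ v : m → ℂ, v ≠ 0 ∧ K.mulVec v = 0 ∧ ∃ σ : ℂ, σ ≠ 0 ∧
      P.mulVec v = σ • v := by
    have hPP : P.mulVec (P.mulVec v0) = v0 := by rw [Matrix.mulVec_mulVec, hP2, Matrix.one_mulVec]
    have hKP : K.mulVec (P.mulVec v0) = 0 := by
      rw [Matrix.mulVec_mulVec, ← hPK, ← Matrix.mulVec_mulVec, hk0, Matrix.mulVec_zero]
    by_cases h : v0 + P.mulVec v0 = 0
    · refine ⟨v0 - P.mulVec v0, ?_, ?_, -1, by norm_num, ?_⟩
      · intro h2
        apply hv0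
        have h3 : (2 : ℂ) • v0 = 0 := by
          rw [two_smul]
          calc v0 + v0 = (v0 + P.mulVec v0) + (v0 - P.mulVec v0) := by abel
            _ = 0 := by rw [h, h2, add_zero]
        exact (smul_eq_zero.mp h3).resolve_left two_ne_zero
      · rw [Matrix.mulVec_sub, hk0, hKP, sub_zero]
      · rw [Matrix.mulVec_sub, hPP]; simp
    · refine ⟨v0 + P.mulVec v0, h, ?_, 1, one_ne_zero, ?_⟩
      · rw [Matrix.mulVec_add, hk0, hKP, add_zero]
      · rw [Matrix.mulVec_add, hPP, one_smul, add_comm]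
  have hvv : star v ⬝ᵥ v ≠ 0 := by
    rw [Ne, dotProduct_star_self_eq_zero]; exact hv
  -- `s = 0`
  have hUh : (T * D).IsHermitian := by
    unfold Matrix.IsHermitian
    rw [Matrix.conjTranspose_mul, hDh.eq, hTh.eq, hTD]
  have hs : s = 0 := by
    have hMh : (Y + T * D).IsHermitian := hYh.add hUh
    have h1 := hMh.im_star_dotProduct_mulVec_self v
    have h2 : (Y + T * D).mulVec v = -(((s : ℂ) * Complex.I) • v) := by
      have h3 : K.mulVec v = (Y + T * D).mulVec v + ((s : ℂ) * Complex.I) • v := by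
        rw [hK, Matrix.add_mulVec, Matrix.add_mulVec, Matrix.add_mulVec, Matrix.smul_mulVec,
          Matrix.one_mulVec]
        abel
      rw [hk] at h3
      exact eq_neg_of_add_eq_zero_left h3.symm
    rw [h2, dotProduct_neg, dotProduct_smul] at h1
    have h4 : star v ⬝ᵥ v = (((star v ⬝ᵥ v).re : ℝ) : ℂ) := by
      apply Complex.ext
      · simp
      · simp only [Complex.ofReal_im]
        have := (Matrix.isHermitian_one (α := ℂ) (n := m)).im_star_dotProduct_mulVec_self v
        rw [Matrix.one_mulVec] at this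
        exact this
    have h5 : (star v ⬝ᵥ v).re ≠ 0 := by
      intro h6; apply hvv; rw [h4, h6]; simp
    rw [h4] at h1
    simp only [smul_eq_mul, map_neg, RCLike.im_to_complex] at h1
    have h7 : ((s : ℂ) * Complex.I * (((star v ⬝ᵥ v).re : ℝ) : ℂ)).im = s * (star v ⬝ᵥ v).re := by
      simp
    rw [h7, neg_eq_zero] at h1
    exact (mul_eq_zero.mp h1).resolve_right h5
  have hUv : (T * D).mulVec v = -(Y.mulVec v) := by
    have h3 : K.mulVec v = (T * D).mulVec v + Y.mulVec v := by
      rw [hK, hs, Matrix.add_mulVec, Matrix.add_mulVec]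
      simp [add_comm]
    rw [hk] at h3
    exact eq_neg_of_add_eq_zero_left h3.symm
  have hDv : D.mulVec v = -((T * Y).mulVec v) := by
    have h := congrArg (fun z => T.mulVec z) hUv
    simp only [Matrix.mulVec_mulVec, Matrix.mulVec_neg] at h
    rw [← mul_assoc, hT, one_mul] at h
    exact h
  -- `|ξ| = 1`
  have hξ : ∑ i, ξ i ^ 2 = 1 := by
    have h1 : D.mulVec (D.mulVec v) = ((∑ i, ξ i ^ 2 : ℝ) : ℂ) • v := by
      rw [Matrix.mulVec_mulVec, hD2, Matrix.smul_mulVec, Matrix.one_mulVec]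
    -- `|Dv|² = |v|²`
    have h2 : star (D.mulVec v) ⬝ᵥ (D.mulVec v) = ((∑ i, ξ i ^ 2 : ℝ) : ℂ) * (star v ⬝ᵥ v) := by
      rw [Matrix.star_mulVec, hDh.eq, ← Matrix.dotProduct_mulVec, h1, dotProduct_smul, smul_eq_mul]
    have h3 : star (D.mulVec v) ⬝ᵥ (D.mulVec v) = star v ⬝ᵥ v := by
      have h4 : (T * Y)ᴴ * (T * Y) = 1 := by
        rw [Matrix.conjTranspose_mul, hYh.eq, hTh.eq]
        calc Y * T * (T * Y) = Y * (T * T) * Y := by noncomm_ring
          _ = 1 := by rw [hT, mul_one, hY2]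
      rw [hDv, star_neg, neg_dotProduct, dotProduct_neg, neg_neg, Matrix.star_mulVec,
        ← Matrix.dotProduct_mulVec, Matrix.mulVec_mulVec, h4, Matrix.one_mulVec]
    rw [h3] at h2
    have h5 : (((∑ i, ξ i ^ 2 : ℝ) : ℂ) - 1) * (star v ⬝ᵥ v) = 0 := by
      rw [sub_mul, ← h2]; ring
    have h6 := (mul_eq_zero.mp h5).resolve_right hvv
    have h7 : ((∑ i, ξ i ^ 2 : ℝ) : ℂ) = ((1 : ℝ) : ℂ) := by
      rw [sub_eq_zero] at h6; rw [h6]; simp
    exact_mod_cast h7
  have hD1 : D * D = 1 := by rw [hD2, hξ]; simp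
  refine ⟨ξ, hξ, v + D.mulVec v, ?_, ?_, ?_⟩
  · intro h
    -- apply the parity
    have h1 : P.mulVec (v + D.mulVec v) = σ • (v - D.mulVec v) := by
      rw [Matrix.mulVec_add, Matrix.mulVec_mulVec, hPD, Matrix.neg_mulVec, ← Matrix.mulVec_mulVec,
        hPv, Matrix.mulVec_smul, smul_sub]
      abel
    rw [h, Matrix.mulVec_zero] at h1
    have h2 := (smul_eq_zero.mp h1.symm).resolve_left hσ
    apply hv
    have h3 : (2 : ℂ) • v = 0 := by
      rw [two_smul]
      calc v + v = (v + D.mulVec v) + (v - D.mulVec v) := by abel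
        _ = 0 := by rw [h, h2, add_zero]
    exact (smul_eq_zero.mp h3).resolve_left two_ne_zero
  · rw [Matrix.mulVec_add, Matrix.mulVec_mulVec, hD1, Matrix.one_mulVec, add_comm]
  · -- `Y D v = T v`
    have h1 : Y.mulVec (D.mulVec v) = T.mulVec v := by
      rw [hDv, Matrix.mulVec_neg, Matrix.mulVec_mulVec]
      have : Y * (T * Y) = -T := by
        calc Y * (T * Y) = Y * (-(Y * T)) := by rw [hTY]
          _ = -((Y * Y) * T) := by noncomm_ring
          _ = -T := by rw [hY2, one_mul]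
      rw [this, Matrix.neg_mulVec, neg_neg]
    have h2 : Y.mulVec v = -(T.mulVec (D.mulVec v)) := by
      rw [Matrix.mulVec_mulVec, hUv, neg_neg]
    rw [Matrix.mulVec_add, h1, h2, Matrix.mulVec_add, Matrix.mulVec_neg]
    have h3 : D.mulVec (T.mulVec (D.mulVec v)) = T.mulVec v := by
      rw [Matrix.mulVec_mulVec, Matrix.mulVec_mulVec]
      have : D * (T * D) = T := by
        calc D * (T * D) = (D * T) * D := by noncomm_ring
          _ = T * (D * D) := by rw [← hTD]; noncomm_ring
          _ = T := by rw [hD1, mul_one]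
      rw [← mul_assoc] at this
      rw [this]
    have h4 : D.mulVec (T.mulVec v) = T.mulVec (D.mulVec v) := by
      rw [Matrix.mulVec_mulVec, Matrix.mulVec_mulVec, hTD]
    rw [h3, h4]; abel

end abstr

end Pool.Agent.C1End
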